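import Pool.Agent.Helper97.FIN.XCore

/-!
# FIN: the algebraic core, for any variety: counting
-/

set_option autoImplicit false

namespace Pool.Agent.FIN

open Pool.Agent.GS Finset

universe u

variable {F κ : Type u} [Field F] [Field κ] [Algebra F κ] {N n q r : ℕ}

/-- incidences -/
theorem inc_leX (I : Set (MvPolynomial (Fin (N + 1)) F)) (ℓ : Fin q → Fin (N + 1) → F)
    (hG : ∀ z : Fin (N + 1) → F, z ≠ 0 → OnX I z → ∀ s : Finset (Fin q), (∀ i ∈ s, dt (ℓ i) z = 0) → s.card ≤ n)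
    [DecidableEq F] (X : Fin r → Fin (N + 1) → F) (hX : ∀ σ, X σ ≠ 0) (hXI : ∀ σ, OnX I (X σ)) :
    ∑ i, (univ.filter fun σ => dt (ℓ i) (X σ) = 0).card ≤ r * n := by
  have h1 : ∑ i, (univ.filter fun σ => dt (ℓ i) (X σ) = 0).card =
      ∑ σ, (univ.filter fun i => dt (ℓ i) (X σ) = 0).card := by
    simp only [Finset.card_filter]
    exact Finset.sum_comm
  rw [h1]
  refine (Finset.sum_le_sum (g := fun _ => n) fun σ _ => ?_).trans (by simp)
  exact hG _ (hX σ) (hXI σ) _ fun i hi => (Finset.mem_filter.1 hi).2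

/-- the numerical conditions hold for all smaller degrees -/
theorem num_ok {n q r r' : ℕ} (hn : 2 ≤ n) (hr : 2 ≤ r) (hq : 3 * r * n + 2 ≤ 2 * q) (h : r' ≤ r) :
    3 * r' * n + 2 ≤ 2 * q ∧ 2 * n + 2 * r' ≤ q + 1 ∧ 4 * r' + 4 * r' * n + 3 * n ≤ 4 * q + 2 := by
  obtain ⟨a, rfl⟩ : ∃ a, n = a + 2 := ⟨n - 2, by omega⟩
  obtain ⟨b, rfl⟩ : ∃ b, r = b + 2 := ⟨r - 2, by omega⟩
  have h1 : r' * (a + 2) ≤ (b + 2) * (a + 2) := Nat.mul_le_mul_right _ h
  refine ⟨?_, ?_, ?_⟩ <;> nlinarith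

/-- a set of representatives for a label function -/
theorem rep_of {L : Type*} [DecidableEq L] (lab : Fin q → L) (R : Fin q → Fin q → Prop)
    (hlab : ∀ i j, lab i = lab j → R i j) :
    ∃ ρ : Fin q → Fin q, (univ.image ρ).card = (univ.image lab).card ∧ ∀ i, R i (ρ i) := by
  classical
  rcases isEmpty_or_nonempty (Fin q) with hq | hq
  · exact ⟨id, by simp, fun i => hq.elim i⟩
  have h1 : ∀ l ∈ univ.image lab, ∃ i, lab i = l := fun l hl => by
    obtain ⟨i, -, hi⟩ := Finset.mem_image.1 hl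
    exact ⟨i, hi⟩
  choose! rep hrep using h1
  have hlr : ∀ i, lab (rep (lab i)) = lab i := fun i => hrep _ (Finset.mem_image_of_mem _ (Finset.mem_univ i))
  refine ⟨fun i => rep (lab i), ?_, fun i => hlab _ _ (hlr i).symm⟩
  have h2 : (univ.image fun i => rep (lab i)) = (univ.image lab).image rep := by
    rw [Finset.image_image]
    rfl
  rw [h2]
  apply Finset.card_image_of_injOn
  intro l hl l' hl' h3
  rw [← hrep l hl, ← hrep l' hl', h3]

theorem dt_add (v z w : Fin (N + 1) → F) (a b : F) :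
    dt v (fun j => a * z j + b * w j) = a * dt v z + b * dt v w := by
  unfold dt
  rw [Finset.mul_sum, Finset.mul_sum, ← Finset.sum_add_distrib]
  exact Finset.sum_congr rfl fun j _ => by ring

theorem coreX [IsAlgClosed F] (htr : rk F (Set.univ : Set κ) ≤ 1) (I : Set (MvPolynomial (Fin (N + 1)) F))
    (hI : Homog I) (hq1 : 3 * r * n + 2 ≤ 2 * q) (hq2 : 2 * n + 2 * r ≤ q + 1)
    (hq3 : 4 * r + 4 * r * n + 3 * n ≤ 4 * q + 2) (ℓ : Fin q → Fin (N + 1) → F) (hℓ : OkX I n r ℓ) (s0 : Fin r)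
    (y : Fin r → Fin (N + 1) → κ) (hX : ∀ σ, OnX I (y σ)) (hu : ∀ i, uu ℓ y i ≠ 0)
    (hy : ∃ a b, ¬ Cst F (y s0 a / y s0 b)) (hrk : Rk F (uu ℓ y) 1) : False := by
  classical
  have hrn : 3 * r * n = 3 * (r * n) := by ring
  rw [hrn] at hq1
  have hG : ∀ z : Fin (N + 1) → F, z ≠ 0 → OnX I z → ∀ s : Finset (Fin q), (∀ i ∈ s, dt (ℓ i) z = 0) → s.card ≤ n :=
    fun z hz hzI s hs => hℓ.gp F z hzI hz s hs
  have hq : r * n < q := by omega
  have hr : 1 ≤ r := by
    have := s0.2
    omega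
  have hlin : ∀ i σ, lin (ℓ i) (y σ) ≠ 0 := fun i σ h0 => hu i (Finset.prod_eq_zero (Finset.mem_univ σ) h0)
  have hq0 : 0 < q := by omega
  have hy0 : ∀ σ, y σ ≠ 0 := by
    intro σ h0
    apply hlin ⟨0, hq0⟩ σ
    rw [h0]
    unfold lin
    exact Finset.sum_eq_zero fun j _ => by rw [Pi.zero_apply, mul_zero]
  set x := y s0 with hxdef
  -- places
  have hinv : ∀ (P : Pla F κ) (z : κ), z ≠ 0 → P.O.valuation z < 1 → z⁻¹ ∉ P.O := by
    intro P z hz hP
    rw [← P.O.valuation_le_one_iff, map_inv₀, not_le]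
    exact (one_lt_inv₀ (zero_lt_iff.2 ((Valuation.ne_zero_iff _).2 hz))).2 hP
  have hplace : ∀ i, ∃ (P : Pla F κ) (s : Fin r → κ) (X : Fin r → Fin (N + 1) → F),
      RedX I P y s X ∧ dt (ℓ i) (X s0) = 0 := by
    intro i
    obtain ⟨c, hc⟩ : ∃ c, ¬ Cst F (x c / lin (ℓ i) x) := by
      by_contra hcon
      push Not at hcon
      obtain ⟨a, b, hab⟩ := hy
      apply hab
      obtain ⟨ca, ha⟩ := hcon a
      obtain ⟨cb, hb⟩ := hcon b
      refine ⟨ca / cb, ?_⟩
      have h1 : lin (ℓ i) x ≠ 0 := hlin i s0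
      rw [map_div₀, ← ha, ← hb, div_div_div_cancel_right₀ h1]
    have hxc : x c ≠ 0 := by
      intro h0
      apply hc
      rw [h0, zero_div]
      exact ⟨0, (map_zero _).symm⟩
    have hc' : ¬ Cst F (lin (ℓ i) x / x c) := by
      rintro ⟨c', hc'⟩
      apply hc
      refine ⟨c'⁻¹, ?_⟩
      rw [map_inv₀, ← hc', inv_div]
    obtain ⟨P, hP⟩ := exists_pla _ hc'
    obtain ⟨s, X, h⟩ := exists_redX I hI htr P _ (hinv P _ (div_ne_zero (hlin i s0) hxc) hP) y hy0 hX
    refine ⟨P, s, X, h, ?_⟩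
    by_contra h0
    have h1 := (h.val_eq s0 (ℓ i)).2 h0
    have h2 := h.val_le s0 (Pi.single c 1)
    have h3 : lin (Pi.single c 1 : Fin (N + 1) → F) (y s0) = x c := by
      unfold lin
      rw [Finset.sum_eq_single c]
      · rw [Pi.single_eq_same, map_one, one_mul]
      · intro j _ hj
        rw [Pi.single_eq_of_ne hj, map_zero, zero_mul]
      · intro h
        exact absurd (Finset.mem_univ _) h
    rw [h3, ← h1] at h2
    rw [map_div₀, div_lt_one₀ (zero_lt_iff.2 ((Valuation.ne_zero_iff _).2 hxc))] at hP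
    exact not_lt.2 h2 hP
  -- the unit `μ`
  set i1 : Fin q := ⟨0, hq0⟩
  obtain ⟨P1, s1, Y1, hR1, hY1⟩ := hplace i1
  obtain ⟨g0, hg0⟩ := exists_neX hR1 hG hq
  have hz1 : ∏ σ, dt (ℓ i1) (Y1 σ) = 0 := Finset.prod_eq_zero (Finset.mem_univ s0) hY1
  set μ := uu ℓ y i1 / uu ℓ y g0 with hμdef
  have hμ0 : μ ≠ 0 := div_ne_zero (hu _) (hu _)
  have hvμ : P1.O.valuation μ < 1 := by
    rw [hμdef, map_div₀, div_lt_one₀ (zero_lt_iff.2 ((Valuation.ne_zero_iff _).2 (hu g0))),
      (hR1.uval_eq ℓ g0).2 hg0]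
    refine lt_of_le_of_ne (hR1.uval_le ℓ i1) fun h0 => ?_
    exact (hR1.uval_eq ℓ i1).1 h0 hz1
  have hμm : ∀ m : ℤ, Cst F (μ ^ m) → m = 0 := by
    rintro m ⟨c, hc⟩
    have hc0 : c ≠ 0 := by
      rintro rfl
      rw [map_zero] at hc
      exact zpow_ne_zero _ hμ0 hc
    have h1 := congrArg P1.O.valuation hc
    rw [val_cst P1 c hc0, map_zpow₀] at h1
    have h0 : 0 < P1.O.valuation μ := zero_lt_iff.2 ((Valuation.ne_zero_iff _).2 hμ0)
    have h2 := (zpow_le_one_iff_right_of_lt_one₀ h0 hvμ).1 h1.le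
    have h3 := (one_le_zpow_iff_right_of_lt_one₀ h0 hvμ).1 h1.ge
    omega
  obtain ⟨M, w, hM, hw0, hw1, hw⟩ := slopes (uu ℓ y) hrk i1 g0 (hu _) (hu _) hμm
  have hS : Slp F (uu ℓ y) μ M w := by
    refine ⟨hM, hμ0, hu, fun g h => ?_⟩
    obtain ⟨c, hc, h1⟩ := hw g (hu g)
    obtain ⟨c', hc', h2⟩ := hw h (hu h)
    refine ⟨c / c', div_ne_zero hc hc', ?_⟩
    rw [← div_div_div_cancel_right₀ (hu g0), div_pow, h1, h2, map_div₀, zpow_sub₀ hμ0, mul_div_mul_comm]
  let V0 : Finset (Fin q) := univ.filter fun g => ∀ h, w g ≤ w h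
  let V1 : Finset (Fin q) := univ.filter fun g => ∀ h, - w g ≤ - w h
  have hV0 : ∀ g, g ∈ V0 ↔ ∀ h, w g ≤ w h := fun g => by simp [V0]
  have hV1 : ∀ g, g ∈ V1 ↔ ∀ h, - w g ≤ - w h := fun g => by simp [V1]
  have hdis : ∀ g, g ∈ V0 → g ∉ V1 := by
    intro g h0 h1
    have h2 := (hV0 g).1 h0 g0
    have h3 := (hV1 g).1 h1 i1
    rw [hw0] at h2
    rw [hw1] at h3
    omega
  obtain ⟨P2, hP2⟩ := exists_pla (μ⁻¹) (fun h => by
    have := hμm (-1) (by rwa [zpow_neg_one])
    omega)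
  obtain ⟨s2, Y2, hR2⟩ := exists_redX I hI htr P2 _ (hinv P2 _ (inv_ne_zero hμ0) hP2) y hy0 hX
  have hc1 : q ≤ V0.card + r * n := by
    have h1 := hR1.card_le ℓ hG V0ᶜ fun i hi => by
      by_contra h0
      exact (Finset.mem_compl.1 hi) ((hV0 i).2 ((over0X hR1 hS hvμ ⟨g0, hg0⟩ i).1 h0))
    rw [Finset.card_compl, Fintype.card_fin] at h1
    omega
  have hc2 : q ≤ V1.card + r * n := by
    have h1 := hR2.card_le ℓ hG V1ᶜ fun i hi => by
      by_contra h0
      exact (Finset.mem_compl.1 hi) ((hV1 i).2 ((over0X hR2 hS.symm hP2 (exists_neX hR2 hG hq) i).1 h0))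
    rw [Finset.card_compl, Fintype.card_fin] at h1
    omega
  have hc3 : V0.card + V1.card ≤ q := by
    rw [← Finset.card_union_of_disjoint (Finset.disjoint_left.2 hdis)]
    refine (Finset.card_le_univ _).trans ?_
    rw [Fintype.card_fin]
  obtain ⟨X0, hX0, hX0I, hX0V, hX0u⟩ := halfX hI htr hG hℓ.twin hq hy0 hX hS V0 hV0 (by omega) P1 hvμ
  obtain ⟨X1, hX1, hX1I, hX1V, hX1u⟩ := halfX hI htr hG hℓ.twin hq hy0 hX hS.symm V1 hV1 (by omega) P2 hP2
  -- classes
  let S0 : Fin q → Finset (Fin r) := fun i => univ.filter fun σ => dt (ℓ i) (X0 σ) = 0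
  let S1 : Fin q → Finset (Fin r) := fun i => univ.filter fun σ => dt (ℓ i) (X1 σ) = 0
  have hi0 : ∑ i, (S0 i).card ≤ r * n := inc_leX I ℓ hG X0 hX0 hX0I
  have hi1 : ∑ i, (S1 i).card ≤ r * n := inc_leX I ℓ hG X1 hX1 hX1I
  have hm0 : ∀ i τ, S0 i = {τ} → ∀ σ, dt (ℓ i) (X0 σ) = 0 ↔ σ = τ := by
    intro i τ h σ
    have h1 : σ ∈ S0 i ↔ dt (ℓ i) (X0 σ) = 0 := by simp [S0]
    rw [← h1, h, Finset.mem_singleton]
  have hm1 : ∀ i τ, S1 i = {τ} → ∀ σ, dt (ℓ i) (X1 σ) = 0 ↔ σ = τ := by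
    intro i τ h σ
    have h1 : σ ∈ S1 i ↔ dt (ℓ i) (X1 σ) = 0 := by simp [S1]
    rw [← h1, h, Finset.mem_singleton]
  have hc0 : ∀ i, ∃ τ : Fin r, (S0 i).card = 1 → S0 i = {τ} := by
    intro i
    by_cases h : (S0 i).card = 1
    · obtain ⟨τ, hτ⟩ := Finset.card_eq_one.1 h
      exact ⟨τ, fun _ => hτ⟩
    · exact ⟨s0, fun h' => absurd h' h⟩
  have hc1' : ∀ i, ∃ τ : Fin r, (S1 i).card = 1 → S1 i = {τ} := by
    intro i
    by_cases h : (S1 i).card = 1
    · obtain ⟨τ, hτ⟩ := Finset.card_eq_one.1 h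
      exact ⟨τ, fun _ => hτ⟩
    · exact ⟨s0, fun h' => absurd h' h⟩
  choose τ0 hτ0 using hc0
  choose τ1 hτ1 using hc1'
  let labc : Fin q → (Fin r ⊕ Fin r) ⊕ Fin q := fun i =>
    if i ∈ V1 ∧ (S0 i).card = 1 then Sum.inl (Sum.inl (τ0 i))
    else if i ∈ V0 ∧ (S1 i).card = 1 then Sum.inl (Sum.inr (τ1 i)) else Sum.inr i
  let B : Finset (Fin q) := univ.filter fun i => ¬ (i ∈ V1 ∧ (S0 i).card = 1) ∧ ¬ (i ∈ V0 ∧ (S1 i).card = 1)
  have hBq : q + B.card ≤ 2 * (r * n) := by
    have h1 : ∑ i : Fin q, (1 + if i ∈ B then 1 else 0) ≤ ∑ i, ((S0 i).card + (S1 i).card) := by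
      refine Finset.sum_le_sum fun i _ => ?_
      have h2 : i ∉ V0 → 1 ≤ (S0 i).card := by
        intro hi
        have h3 : ∏ σ, dt (ℓ i) (X0 σ) = 0 := by
          by_contra h0
          exact hi ((hX0V i).1 h0)
        obtain ⟨σ, -, hσ⟩ := Finset.prod_eq_zero_iff.1 h3
        exact Finset.card_pos.2 ⟨σ, Finset.mem_filter.2 ⟨Finset.mem_univ _, hσ⟩⟩
      have h2' : i ∉ V1 → 1 ≤ (S1 i).card := by
        intro hi
        have h3 : ∏ σ, dt (ℓ i) (X1 σ) = 0 := by
          by_contra h0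
          exact hi ((hX1V i).1 h0)
        obtain ⟨σ, -, hσ⟩ := Finset.prod_eq_zero_iff.1 h3
        exact Finset.card_pos.2 ⟨σ, Finset.mem_filter.2 ⟨Finset.mem_univ _, hσ⟩⟩
      by_cases hi0 : i ∈ V0
      · have hi1 := hdis i hi0
        have h4 := h2' hi1
        split_ifs with hB
        · have h5 := (Finset.mem_filter.1 hB).2.2
          have h6 : (S1 i).card ≠ 1 := fun h => h5 ⟨hi0, h⟩
          omega
        · omega
      · have h4 := h2 hi0
        by_cases hi1 : i ∈ V1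
        · split_ifs with hB
          · have h5 := (Finset.mem_filter.1 hB).2.1
            have h6 : (S0 i).card ≠ 1 := fun h => h5 ⟨hi1, h⟩
            omega
          · omega
        · have h5 := h2' hi1
          split_ifs <;> omega
    rw [Finset.sum_add_distrib, Finset.sum_add_distrib, Finset.sum_ite_mem, Finset.univ_inter] at h1
    simp only [Finset.sum_const, Finset.card_univ, Fintype.card_fin, smul_eq_mul, mul_one] at h1
    omega
  have hNB : (univ.image labc).card ≤ 2 * r + B.card := by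
    have h1 : univ.image labc ⊆ (univ.image Sum.inl) ∪ B.image Sum.inr := by
      intro l hl
      obtain ⟨i, -, rfl⟩ := Finset.mem_image.1 hl
      by_cases h1 : i ∈ V1 ∧ (S0 i).card = 1
      · refine Finset.mem_union_left _ ?_
        simp only [labc, if_pos h1]
        exact Finset.mem_image_of_mem _ (Finset.mem_univ _)
      · by_cases h2 : i ∈ V0 ∧ (S1 i).card = 1
        · refine Finset.mem_union_left _ ?_
          simp only [labc, if_neg h1, if_pos h2]
          exact Finset.mem_image_of_mem _ (Finset.mem_univ _)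
        · refine Finset.mem_union_right _ ?_
          simp only [labc, if_neg h1, if_neg h2]
          exact Finset.mem_image_of_mem _ (Finset.mem_filter.2 ⟨Finset.mem_univ _, h1, h2⟩)
    refine (Finset.card_le_card h1).trans ((Finset.card_union_le _ _).trans ?_)
    refine Nat.add_le_add (Finset.card_image_le.trans ?_) Finset.card_image_le
    rw [Finset.card_univ, Fintype.card_sum, Fintype.card_fin]
    omega
  have hsim : ∀ i j, labc i = labc j → Sim ℓ x i j := by
    intro i j hij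
    by_cases h1 : i ∈ V1 ∧ (S0 i).card = 1
    · by_cases h2 : j ∈ V1 ∧ (S0 j).card = 1
      · simp only [labc, if_pos h1, if_pos h2, Sum.inl.injEq] at hij
        refine sim_ofX hI htr hG hq hy0 hX hS X0 hX0u s0 i j ?_ ?_ (τ0 i) (hm0 i _ (hτ0 i h1.2)) ?_
        · intro h
          have := (hV1 i).1 h1.1 h
          omega
        · intro h
          have := (hV1 j).1 h2.1 h
          omega
        · rw [hij]
          exact hm0 j _ (hτ0 j h2.2)
      · by_cases h3 : j ∈ V0 ∧ (S1 j).card = 1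
        · simp only [labc, if_pos h1, if_neg h2, if_pos h3] at hij
          simp at hij
        · simp only [labc, if_pos h1, if_neg h2, if_neg h3] at hij
          simp at hij
    · by_cases h1' : i ∈ V0 ∧ (S1 i).card = 1
      · by_cases h2 : j ∈ V1 ∧ (S0 j).card = 1
        · simp only [labc, if_neg h1, if_pos h1', if_pos h2] at hij
          simp at hij
        · by_cases h3 : j ∈ V0 ∧ (S1 j).card = 1
          · simp only [labc, if_neg h1, if_pos h1', if_neg h2, if_pos h3, Sum.inl.injEq, Sum.inr.injEq] at hij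
            refine sim_ofX hI htr hG hq hy0 hX hS.symm X1 hX1u s0 i j ?_ ?_ (τ1 i) (hm1 i _ (hτ1 i h1'.2)) ?_
            · intro h
              have := (hV0 i).1 h1'.1 h
              omega
            · intro h
              have := (hV0 j).1 h3.1 h
              omega
            · rw [hij]
              exact hm1 j _ (hτ1 j h3.2)
          · simp only [labc, if_neg h1, if_pos h1', if_neg h2, if_neg h3] at hij
            simp at hij
      · by_cases h2 : j ∈ V1 ∧ (S0 j).card = 1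
        · simp only [labc, if_neg h1, if_neg h1', if_pos h2] at hij
          simp at hij
        · by_cases h3 : j ∈ V0 ∧ (S1 j).card = 1
          · simp only [labc, if_neg h1, if_neg h1', if_neg h2, if_pos h3] at hij
            simp at hij
          · simp only [labc, if_neg h1, if_neg h1', if_neg h2, if_neg h3, Sum.inr.injEq] at hij
            subst hij
            exact ⟨1, by rw [map_one, div_self (hlin i s0)]⟩

  -- the points
  let Z : Fin r ⊕ Fin r → Fin (N + 1) → F := Sum.elim X0 X1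
  have hZ0 : ∀ l, Z l ≠ 0 := by
    rintro (σ | σ)
    · exact hX0 σ
    · exact hX1 σ
  have hZI : ∀ l, OnX I (Z l) := by
    rintro (σ | σ)
    · exact hX0I σ
    · exact hX1I σ
  have hlabel : ∀ i, ∃ l, dt (ℓ i) (Z l) = 0 ∧ ∃ (P : Pla F κ) (s : Fin r → κ) (X : Fin r → Fin (N + 1) → F)
      (t : F), RedX I P y s X ∧ t ≠ 0 ∧ X s0 = t • Z l := by
    intro i
    obtain ⟨P, s, X, h, h0⟩ := hplace i
    have hne := exists_neX h hG hq
    rcases lt_trichotomy (P.O.valuation μ) 1 with hμ | hμ | hμ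
    · obtain ⟨π, hπ⟩ := hX0u P s X h hμ
      obtain ⟨t, ht, hXt⟩ := hπ s0
      refine ⟨Sum.inl (π s0), ?_, P, s, X, t, h, ht, hXt⟩
      rw [hXt, dt_smul] at h0
      exact (mul_eq_zero.1 h0).resolve_left ht
    · exact absurd (Finset.prod_eq_zero (Finset.mem_univ s0) h0) (over1X h hS hμ hne i)
    · have hμ' : P.O.valuation μ⁻¹ < 1 := by
        rw [map_inv₀]
        exact inv_lt_one_of_one_lt₀ hμ
      obtain ⟨π, hπ⟩ := hX1u P s X h hμ'
      obtain ⟨t, ht, hXt⟩ := hπ s0
      refine ⟨Sum.inr (π s0), ?_, P, s, X, t, h, ht, hXt⟩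
      rw [hXt, dt_smul] at h0
      exact (mul_eq_zero.1 h0).resolve_left ht
  choose lab hlab0 hlabP using hlabel
  -- values at the points, for equivalent forms
  have hval : ∀ i j (c : F), lin (ℓ i) x / lin (ℓ j) x = algebraMap F κ c → ∀ i',
      dt (ℓ i) (Z (lab i')) = c * dt (ℓ j) (Z (lab i')) := by
    intro i j c hc i'
    obtain ⟨P, s, X, t, h, ht, hXt⟩ := hlabP i'
    have h1 : lin (ℓ i) x = algebraMap F κ c * lin (ℓ j) x := by
      rw [← hc, div_mul_cancel₀ _ (hlin j s0)]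
    have h2 : dt (ℓ i) (X s0) = c * dt (ℓ j) (X s0) := by
      apply (algebraMap F P.K).injective
      rw [← h.res s0 (ℓ i), ← hxdef, h1, mul_div_assoc, hxdef, P.res_mul (P.h c) (h.mem s0 (ℓ j)), P.res_cst,
        h.res s0 (ℓ j), map_mul]
    rw [hXt, dt_smul, dt_smul] at h2
    apply mul_left_cancel₀ ht
    rw [h2]
    ring
  obtain ⟨ρ, hρc, hρ⟩ := rep_of labc (Sim ℓ x) hsim
  choose cc hcc using hρ
  have hcc0 : ∀ i, cc i ≠ 0 := by
    intro i h0
    have h1 := hcc i
    rw [h0, map_zero, div_eq_zero_iff] at h1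
    exact h1.elim (hlin i s0) (hlin _ s0)
  have hNq : (univ.image labc).card ≤ q := by
    refine Finset.card_image_le.trans ?_
    rw [Finset.card_univ, Fintype.card_fin]
  -- three independent points
  by_cases hthree : ∃ i₁ i₂ i₃, LinearIndependent F ![Z (lab i₁), Z (lab i₂), Z (lab i₃)]
  · obtain ⟨i₁, i₂, i₃, hli⟩ := hthree
    refine hℓ.three ρ ?_ ⟨_, cc, hli, ?_, fun i => ⟨hcc0 i, ?_⟩, ?_⟩
    · have h1 : 4 * r * n = 4 * (r * n) := by ring
      rw [hρc]
      omega
    · intro a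
      fin_cases a
      · exact hZI _
      · exact hZI _
      · exact hZI _
    · intro a
      fin_cases a
      · exact hval i (ρ i) (cc i) (hcc i) i₁
      · exact hval i (ρ i) (cc i) (hcc i) i₂
      · exact hval i (ρ i) (cc i) (hcc i) i₃
    · have h1 : ∀ i', ∃ i, dt (ℓ (ρ i)) (Z (lab i')) = 0 := by
        intro i'
        refine ⟨i', ?_⟩
        have h2 := hval i' (ρ i') (cc i') (hcc i') i'
        rw [hlab0 i'] at h2
        exact (mul_eq_zero.1 h2.symm).resolve_left (hcc0 i')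
      intro a
      fin_cases a
      · exact h1 i₁
      · exact h1 i₂
      · exact h1 i₃
  -- two independent points
  have htwo : ∃ i₂, LinearIndependent F ![Z (lab i1), Z (lab i₂)] := by
    by_contra hcon
    push Not at hcon
    have h1 : ∀ i, dt (ℓ i) (Z (lab i1)) = 0 := by
      intro i
      have h2 := hcon i
      rw [LinearIndependent.pair_iff' (hZ0 _)] at h2
      push Not at h2
      obtain ⟨a, ha⟩ := h2
      have h3 := hlab0 i
      rw [← ha, dt_smul] at h3
      refine (mul_eq_zero.1 h3).resolve_left ?_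
      rintro rfl
      rw [zero_smul] at ha
      exact hZ0 _ ha.symm
    have h2 := hG _ (hZ0 (lab i1)) (hZI _) Finset.univ fun i _ => h1 i
    rw [Finset.card_univ, Fintype.card_fin] at h2
    have h3 : n ≤ r * n := Nat.le_mul_of_pos_left n hr
    omega
  obtain ⟨i₂, hli2⟩ := htwo
  have hspan : ∀ i, ∃ α β : F, Z (lab i) = fun j => α * Z (lab i1) j + β * Z (lab i₂) j := by
    intro i
    by_contra hcon
    apply hthree
    refine ⟨i, i1, i₂, ?_⟩
    refine (linearIndependent_finCons (v := ![Z (lab i1), Z (lab i₂)]) (x := Z (lab i))).2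
      ⟨hli2, fun h => hcon ?_⟩
    rw [Matrix.range_cons, Matrix.range_cons, Matrix.range_empty, Set.union_empty, Set.singleton_union,
      Submodule.mem_span_pair] at h
    obtain ⟨a, b, hab⟩ := h
    refine ⟨a, b, ?_⟩
    rw [← hab]
    rfl
  choose α β hαβ using hspan
  have hl12 : lab i1 ≠ lab i₂ := by
    intro h
    rw [h] at hli2
    have h1 := hli2.injective
    have h2 : (0 : Fin 2) = 1 := h1 rfl
    exact absurd h2 (by decide)
  let O : Finset (Fin r ⊕ Fin r) := (univ.erase (lab i1)).erase (lab i₂)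
  have hO : O.card = 2 * r - 2 := by
    rw [Finset.card_erase_of_mem (Finset.mem_erase.2 ⟨hl12.symm, Finset.mem_univ _⟩),
      Finset.card_erase_of_mem (Finset.mem_univ _), Finset.card_univ, Fintype.card_sum, Fintype.card_fin]
    omega
  let e := O.equivFinOfCardEq hO
  -- coefficient of a label
  let τ' : Fin r ⊕ Fin r → F := fun l => if h : ∃ i, lab i = l ∧ α i ≠ 0 then β h.choose / α h.choose else 0
  refine hℓ.line (by omega) ⟨Z (lab i1), Z (lab i₂), fun a => τ' (e.symm a), hZ0 _, hZ0 _, hZI _, hZI _, ?_, ?_⟩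
  · intro a h0
    rw [LinearIndependent.pair_iff] at hli2
    have h1 := hli2 1 (τ' (e.symm a)) (by
      rw [← h0]
      funext j
      simp)
    exact one_ne_zero h1.1
  · intro i
    by_cases h1 : lab i = lab i1
    · left
      rw [← h1]
      exact hlab0 i
    by_cases h2 : lab i = lab i₂
    · right
      left
      rw [← h2]
      exact hlab0 i
    by_cases h3 : ∃ i', lab i' = lab i ∧ α i' ≠ 0
    · right
      right
      have hm : lab i ∈ O := Finset.mem_erase.2 ⟨h2, Finset.mem_erase.2 ⟨h1, Finset.mem_univ _⟩⟩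
      refine ⟨e ⟨lab i, hm⟩, ?_⟩
      have he : (e.symm (e ⟨lab i, hm⟩) : Fin r ⊕ Fin r) = lab i := by rw [Equiv.symm_apply_apply]
      have hτ : τ' (lab i) = β h3.choose / α h3.choose := by
        simp only [τ']
        rw [dif_pos h3]
      show dt (ℓ i) (fun j => Z (lab i1) j + τ' (e.symm (e ⟨lab i, hm⟩)) * Z (lab i₂) j) = 0
      rw [he, hτ]
      obtain ⟨h4, h5⟩ := h3.choose_spec
      have h6 : dt (ℓ i) (Z (lab h3.choose)) = 0 := by
        rw [h4]
        exact hlab0 i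
      rw [hαβ h3.choose, dt_add] at h6
      have h7 : (fun j => Z (lab i1) j + β h3.choose / α h3.choose * Z (lab i₂) j) =
          fun j => 1 * Z (lab i1) j + β h3.choose / α h3.choose * Z (lab i₂) j := by
        funext j
        rw [one_mul]
      rw [h7, dt_add]
      field_simp
      linear_combination h6
    · right
      left
      have h4 : α i = 0 := by
        by_contra h
        exact h3 ⟨i, rfl, h⟩
      have h5 := hlab0 i
      have h6 := hαβ i
      rw [hαβ i, dt_add, h4, zero_mul, zero_add] at h5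
      refine (mul_eq_zero.1 h5).resolve_left ?_
      intro h7
      apply hZ0 (lab i)
      rw [h6, h4, h7]
      funext j
      simp

end Pool.Agent.FIN
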