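import Pool.Agent.Helper77.GS.Defs

/-!
# FIN (points of bounded degree, generic hyperplanes of `P^n`, `2 q ≥ 3 r n + 2`): definitions

The unit relation argument in dimension one. `x` is a point over `κ`, of transcendence degree one over the algebraically
closed field `F`, not rational over `F`; the products `u i` of the values at the conjugates have rank at most one modulo `F`.
-/

set_option autoImplicit false

namespace Pool.Agent.FIN

open Pool.Agent.GS

universe u

/-- Two disjoint families of `p` points, both meeting all hyperplanes of `G`, with proportional products of values on `V`. -/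
def Twin {K : Type u} [Field K] {n q : ℕ} (V G : Finset (Fin q)) (p : ℕ) (ℓ : Fin q → Fin (n + 1) → K) : Prop :=
  ∃ (y z : Fin p → Fin (n + 1) → K) (c : K), c ≠ 0 ∧ (∀ a b, ∃ s t, y a s * z b t ≠ y a t * z b s) ∧
    (∀ g ∈ G, ∏ a, dt (ℓ g) (y a) = 0 ∧ ∏ b, dt (ℓ g) (z b) = 0) ∧
    ∀ j ∈ V, ∏ a, dt (ℓ j) (y a) = c * ∏ b, dt (ℓ j) (z b)

/-- Modulo a subspace of dimension at most `e`, every `ℓ i` is a multiple of `ℓ (ρ i)`. -/
def Thin {K : Type u} [Field K] {n q : ℕ} (ρ : Fin q → Fin q) (e : ℕ) (ℓ : Fin q → Fin (n + 1) → K) : Prop :=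
  ∃ (w : Fin e → Fin (n + 1) → K) (κ : Fin q → K) (μ : Fin q → Fin e → K),
    ∀ i j, ℓ i j = κ i * ℓ (ρ i) j + ∑ s, μ i s * w s j

/-- The conditions on the hyperplanes. -/
structure Ok {K : Type u} [Field K] {n q : ℕ} (ℓ : Fin q → Fin (n + 1) → K) : Prop where
  gp : ∀ B : Fin (n + 1) → Fin q, Function.Injective B → (Matrix.of fun a j => ℓ (B a) j).det ≠ 0
  twin : ∀ (V G : Finset (Fin q)) (p : ℕ), 1 ≤ p → Disjoint V G → 2 * p * n + 2 ≤ 2 * G.card + V.card → ¬ Twin V G p ℓ
  thin : ∀ (ρ : Fin q → Fin q) (e : ℕ), (∀ i, ρ (ρ i) = ρ i) → e < n →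
    e * (n + 1 - e) < (q - (Finset.univ.image ρ).card) * (n - e) → ¬ Thin ρ e ℓ

end Pool.Agent.FIN
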