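import Pool.Agent.Helper97.FIN.Defs

/-!
# FIN: two cycles with the same values are equal
-/

set_option autoImplicit false

namespace Pool.Agent.FIN

open Pool.Agent.GS Finset

universe u

variable {F : Type u} [Field F] {n q r : ℕ}

theorem dt_smul (v z : Fin (n + 1) → F) (t : F) : dt v (t • z) = t * dt v z := by
  unfold dt
  rw [Finset.mul_sum]
  exact Finset.sum_congr rfl fun j _ => by simp only [Pi.smul_apply, smul_eq_mul]; ring

/-- parallel vectors -/
theorem par (y z : Fin (n + 1) → F) (hy : y ≠ 0) (hz : z ≠ 0) (h : ∀ s t, y s * z t = y t * z s) :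
    ∃ t : F, t ≠ 0 ∧ y = t • z := by
  obtain ⟨s, hs⟩ := Function.ne_iff.1 hz
  refine ⟨y s / z s, ?_, ?_⟩
  · intro h0
    rcases div_eq_zero_iff.1 h0 with h1 | h1
    · apply hy
      funext t
      have h2 := h s t
      rw [h1, zero_mul] at h2
      exact (mul_eq_zero.1 h2.symm).resolve_right hs
    · exact hs h1
  · funext t
    have h2 := h s t
    rw [Pi.smul_apply, smul_eq_mul, div_mul_eq_mul_div, eq_div_iff hs]
    exact h2.symm

theorem twin_match (ℓ : Fin q → Fin (n + 1) → F)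
    (hG : ∀ z : Fin (n + 1) → F, z ≠ 0 → ∀ s : Finset (Fin q), (∀ i ∈ s, dt (ℓ i) z = 0) → s.card ≤ n)
    (hT : ∀ (V G : Finset (Fin q)) (p : ℕ), 1 ≤ p → Disjoint V G → 2 * p * n + 2 ≤ 2 * G.card + V.card →
      ¬ Twin V G p ℓ)
    (V : Finset (Fin q)) (hV : V.card + 2 * (r * n) + 2 ≤ 2 * q) (X Y : Fin r → Fin (n + 1) → F)
    (hX : ∀ σ, X σ ≠ 0) (hY : ∀ σ, Y σ ≠ 0) (hXV : ∀ g, ∏ σ, dt (ℓ g) (X σ) ≠ 0 ↔ g ∈ V)
    (hYV : ∀ g, ∏ σ, dt (ℓ g) (Y σ) ≠ 0 ↔ g ∈ V) (c : F) (hc : c ≠ 0)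
    (hcV : ∀ j ∈ V, ∏ σ, dt (ℓ j) (X σ) = c * ∏ σ, dt (ℓ j) (Y σ)) :
    ∃ π : Equiv.Perm (Fin r), ∀ σ, ∃ t : F, t ≠ 0 ∧ X σ = t • Y (π σ) := by
  classical
  let Par : (Fin (n + 1) → F) → (Fin (n + 1) → F) → Prop := fun y z => ∀ s t, y s * z t = y t * z s
  let 𝓜 : Finset (Finset (Fin r) × (Fin r → Fin r)) := univ.filter fun m =>
    Set.InjOn m.2 m.1 ∧ ∀ a ∈ m.1, Par (X a) (Y (m.2 a))
  have hne : 𝓜.Nonempty := ⟨(∅, id), by simp [𝓜]⟩
  obtain ⟨⟨A, f⟩, hmem, hmax⟩ := Finset.exists_max_image 𝓜 (fun m => m.1.card) hne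
  obtain ⟨hinj, hpar⟩ := (Finset.mem_filter.1 hmem).2
  simp only at hinj hpar hmax
  set B := A.image f with hB
  have hBc : B.card = A.card := Finset.card_image_of_injOn hinj
  have hAr : A.card ≤ r := by simpa using Finset.card_le_univ A
  by_cases hfull : A.card = r
  · have hA : A = univ := by
      apply Finset.eq_univ_of_card
      rw [hfull, Fintype.card_fin]
    have hfi : Function.Injective f := by
      intro a b hab
      exact hinj (by rw [hA]; simp) (by rw [hA]; simp) hab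
    refine ⟨Equiv.ofBijective f (Finite.injective_iff_bijective.1 hfi), fun σ => ?_⟩
    exact par _ _ (hX σ) (hY _) (hpar σ (by rw [hA]; exact Finset.mem_univ _))
  exfalso
  obtain ⟨p, hp⟩ : ∃ p, r = A.card + p := ⟨r - A.card, by omega⟩
  have hp1 : 1 ≤ p := by omega
  have hAc : Aᶜ.card = p := by
    rw [Finset.card_compl, Fintype.card_fin]
    omega
  have hBcc : Bᶜ.card = p := by
    rw [Finset.card_compl, Fintype.card_fin, hBc]
    omega
  have hnp : ∀ a ∈ Aᶜ, ∀ b ∈ Bᶜ, ¬ Par (X a) (Y b) := by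
    intro a ha b hb hab
    rw [Finset.mem_compl] at ha hb
    have h1 : (insert a A, Function.update f a b) ∈ 𝓜 := by
      rw [Finset.mem_filter]
      refine ⟨Finset.mem_univ _, ?_, ?_⟩
      · intro x hx y hy hxy
        simp only [Finset.coe_insert, Set.mem_insert_iff, Finset.mem_coe] at hx hy
        simp only at hxy
        rcases hx with rfl | hx <;> rcases hy with rfl | hy
        · rfl
        · have hya : y ≠ x := fun e => ha (e ▸ hy)
          rw [Function.update_self, Function.update_of_ne hya] at hxy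
          exact absurd (hxy ▸ Finset.mem_image_of_mem f hy) hb
        · have hxa : x ≠ y := fun e => ha (e ▸ hx)
          rw [Function.update_self, Function.update_of_ne hxa] at hxy
          exact absurd (hxy ▸ Finset.mem_image_of_mem f hx) hb
        · have hxa : x ≠ a := fun e => ha (e ▸ hx)
          have hya : y ≠ a := fun e => ha (e ▸ hy)
          rw [Function.update_of_ne hxa, Function.update_of_ne hya] at hxy
          exact hinj hx hy hxy
      · intro x hx
        simp only at hx ⊢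
        rcases Finset.mem_insert.1 hx with rfl | hx
        · rw [Function.update_self]
          exact hab
        · have hxa : x ≠ a := fun e => ha (e ▸ hx)
          rw [Function.update_of_ne hxa]
          exact hpar x hx
    have h2 := hmax _ h1
    simp only [Finset.card_insert_of_notMem ha] at h2
    omega
  choose! t ht0 ht using fun (a : Fin r) (ha : a ∈ A) => par _ _ (hX a) (hY _) (hpar a ha)
  -- the set `G`
  let G : Finset (Fin q) := univ.filter fun g => g ∉ V ∧ ∀ a ∈ A, dt (ℓ g) (X a) ≠ 0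
  have hVG : Disjoint V G := by
    rw [Finset.disjoint_left]
    intro g hg hg'
    exact (Finset.mem_filter.1 hg').2.1 hg
  have hcard : q ≤ G.card + V.card + A.card * n := by
    have h1 : (univ : Finset (Fin q)) ⊆ (G ∪ V) ∪ A.biUnion fun a => univ.filter fun i => dt (ℓ i) (X a) = 0 := by
      intro g _
      by_cases hgV : g ∈ V
      · exact Finset.mem_union_left _ (Finset.mem_union_right _ hgV)
      by_cases hgA : ∀ a ∈ A, dt (ℓ g) (X a) ≠ 0
      · exact Finset.mem_union_left _ (Finset.mem_union_left _ (Finset.mem_filter.2 ⟨Finset.mem_univ _, hgV, hgA⟩))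
      · push Not at hgA
        obtain ⟨a, ha, hga⟩ := hgA
        exact Finset.mem_union_right _ (Finset.mem_biUnion.2 ⟨a, ha, Finset.mem_filter.2 ⟨Finset.mem_univ _, hga⟩⟩)
    have h2 := Finset.card_le_card h1
    rw [Finset.card_univ, Fintype.card_fin] at h2
    refine h2.trans ((Finset.card_union_le _ _).trans ?_)
    refine Nat.add_le_add (Finset.card_union_le _ _) ?_
    refine Finset.card_biUnion_le.trans ((Finset.sum_le_sum (g := fun _ => n) fun a _ =>
      hG _ (hX a) _ fun i hi => (Finset.mem_filter.1 hi).2).trans ?_)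
    rw [Finset.sum_const, smul_eq_mul]
  refine hT V G p hp1 hVG ?_ ?_
  · have h1 : r * n = A.card * n + p * n := (congrArg (· * n) hp).trans (add_mul _ _ _)
    have h2 : 2 * p * n = 2 * (p * n) := by ring
    rw [h2]
    omega
  let e := Aᶜ.orderIsoOfFin hAc
  let e' := Bᶜ.orderIsoOfFin hBcc
  have hprodX : ∀ g, ∏ σ, dt (ℓ g) (X σ) = (∏ a ∈ A, dt (ℓ g) (X a)) * ∏ a, dt (ℓ g) (X (e a)) := by
    intro g
    rw [← Finset.prod_mul_prod_compl A]
    congr 1
    rw [← Finset.prod_coe_sort Aᶜ]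
    exact (Equiv.prod_comp e.toEquiv fun a : {x // x ∈ Aᶜ} => dt (ℓ g) (X a)).symm
  have hprodY : ∀ g, ∏ σ, dt (ℓ g) (Y σ) = (∏ a ∈ A, dt (ℓ g) (Y (f a))) * ∏ b, dt (ℓ g) (Y (e' b)) := by
    intro g
    rw [← Finset.prod_mul_prod_compl B]
    congr 1
    · rw [hB, Finset.prod_image hinj]
    · rw [← Finset.prod_coe_sort Bᶜ]
      exact (Equiv.prod_comp e'.toEquiv fun b : {x // x ∈ Bᶜ} => dt (ℓ g) (Y b)).symm
  have hprodt : ∀ g, ∏ a ∈ A, dt (ℓ g) (X a) = (∏ a ∈ A, t a) * ∏ a ∈ A, dt (ℓ g) (Y (f a)) := by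
    intro g
    rw [← Finset.prod_mul_distrib]
    exact Finset.prod_congr rfl fun a ha => by
      conv_lhs => rw [ht a ha]
      rw [dt_smul]
  have hT0 : ∏ a ∈ A, t a ≠ 0 := Finset.prod_ne_zero_iff.2 fun a ha => ht0 a ha
  refine ⟨fun a => X (e a), fun b => Y (e' b), c / ∏ a ∈ A, t a, div_ne_zero hc hT0, ?_, ?_, ?_⟩
  · intro a b
    have h1 := hnp _ (e a).2 _ (e' b).2
    simp only [Par] at h1
    push Not at h1
    exact h1
  · intro g hg
    obtain ⟨hgV, hgA⟩ := (Finset.mem_filter.1 hg).2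
    have h1 : ∏ σ, dt (ℓ g) (X σ) = 0 := by
      by_contra h
      exact hgV ((hXV g).1 h)
    have h2 : ∏ σ, dt (ℓ g) (Y σ) = 0 := by
      by_contra h
      exact hgV ((hYV g).1 h)
    have h3 : ∏ a ∈ A, dt (ℓ g) (X a) ≠ 0 := Finset.prod_ne_zero_iff.2 hgA
    rw [hprodX] at h1
    rw [hprodY] at h2
    refine ⟨(mul_eq_zero.1 h1).resolve_left h3, (mul_eq_zero.1 h2).resolve_left ?_⟩
    intro h4
    apply h3
    rw [hprodt, h4, mul_zero]
  · intro j hj
    have h1 := hcV j hj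
    have h2 : ∏ a ∈ A, dt (ℓ j) (Y (f a)) ≠ 0 := by
      intro h0
      apply (hYV j).2 hj
      rw [hprodY, h0, zero_mul]
    rw [hprodX, hprodY, hprodt] at h1
    have h3 : (∏ a ∈ A, dt (ℓ j) (Y (f a))) * ((∏ a ∈ A, t a) * ∏ a, dt (ℓ j) (X (e a))) =
        (∏ a ∈ A, dt (ℓ j) (Y (f a))) * (c * ∏ b, dt (ℓ j) (Y (e' b))) := by
      rw [← mul_assoc, ← mul_assoc, mul_comm _ (∏ a ∈ A, t a), h1]
      ring
    have h4 := mul_left_cancel₀ h2 h3
    rw [div_mul_eq_mul_div, eq_div_iff hT0, mul_comm]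
    exact h4

end Pool.Agent.FIN
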