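import Pool.Agent.Helper97.FIN.Place
import Pool.Agent.Helper97.FIN.Match

/-!
# FIN: the cycles over the zeros of the unit
-/

set_option autoImplicit false

namespace Pool.Agent.FIN

open Pool.Agent.GS Finset

universe u

variable {F κ : Type u} [Field F] [Field κ] [Algebra F κ] {n q r : ℕ}

/-- The reduction at a place, with points over `F`. -/
structure RedF (P : Pla F κ) (y : Fin r → Fin (n + 1) → κ) (s : Fin r → κ) (X : Fin r → Fin (n + 1) → F) : Prop where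
  s0 : ∀ σ, s σ ≠ 0
  X0 : ∀ σ, X σ ≠ 0
  mem : ∀ σ (v : Fin (n + 1) → F), lin v (y σ) / s σ ∈ P.O
  res : ∀ σ (v : Fin (n + 1) → F), P.res (lin v (y σ) / s σ) = algebraMap F P.K (dt v (X σ))

theorem exists_redF [IsAlgClosed F] (htr : rk F (Set.univ : Set κ) ≤ 1) (P : Pla F κ) (z : κ) (hz : z ∉ P.O)
    (y : Fin r → Fin (n + 1) → κ) (hy : ∀ σ, y σ ≠ 0) : ∃ s X, RedF P y s X := by
  choose s hs hsO hs0 hsl hsX using fun σ => red P (y σ) (hy σ)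
  choose X hX using fun σ a => res_all htr P z hz (P.res (y σ a / s σ))
  refine ⟨s, X, hs, fun σ h => hs0 σ ?_, fun σ v => (lin_red P v (y σ) (s σ) (hsl σ)).1, fun σ v => ?_⟩
  · funext a
    rw [hX, h]
    exact map_zero _
  · rw [(lin_red P v (y σ) (s σ) (hsl σ)).2]
    unfold lin dt
    rw [map_sum]
    exact Finset.sum_congr rfl fun a _ => by rw [map_mul]; exact congrArg _ (hX σ a)

namespace RedF

variable {P : Pla F κ} {y : Fin r → Fin (n + 1) → κ} {s : Fin r → κ} {X : Fin r → Fin (n + 1) → F}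

theorem val_le (h : RedF P y s X) (σ : Fin r) (v : Fin (n + 1) → F) :
    P.O.valuation (lin v (y σ)) ≤ P.O.valuation (s σ) := by
  have h1 := (P.O.valuation_le_one_iff _).2 (h.mem σ v)
  rw [map_div₀, div_le_one₀ (zero_lt_iff.2 ((Valuation.ne_zero_iff _).2 (h.s0 σ)))] at h1
  exact h1

theorem val_eq (h : RedF P y s X) (σ : Fin r) (v : Fin (n + 1) → F) :
    P.O.valuation (lin v (y σ)) = P.O.valuation (s σ) ↔ dt v (X σ) ≠ 0 := by
  have h0 : P.O.valuation (s σ) ≠ 0 := (Valuation.ne_zero_iff _).2 (h.s0 σ)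
  rw [← (map_ne_zero (algebraMap F P.K)), ← h.res, P.res_ne_zero (h.mem σ v), map_div₀, div_eq_one_iff_eq h0]

/-- the product of the scaling factors -/
theorem uval_le (h : RedF P y s X) (ℓ : Fin q → Fin (n + 1) → F) (i : Fin q) :
    P.O.valuation (uu ℓ y i) ≤ ∏ σ, P.O.valuation (s σ) := by
  unfold uu
  rw [map_prod]
  exact Finset.prod_le_prod' fun σ _ => h.val_le σ _

theorem sval_ne (h : RedF P y s X) : ∏ σ, P.O.valuation (s σ) ≠ 0 :=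
  Finset.prod_ne_zero_iff.2 fun σ _ => (Valuation.ne_zero_iff _).2 (h.s0 σ)

theorem ures (h : RedF P y s X) (ℓ : Fin q → Fin (n + 1) → F) (i : Fin q) :
    uu ℓ y i / ∏ σ, s σ ∈ P.O ∧ P.res (uu ℓ y i / ∏ σ, s σ) = algebraMap F P.K (∏ σ, dt (ℓ i) (X σ)) := by
  have h1 : uu ℓ y i / ∏ σ, s σ = ∏ σ, lin (ℓ i) (y σ) / s σ := by
    rw [Finset.prod_div_distrib]
    rfl
  rw [h1]
  refine ⟨P.mem_prod _ _ fun σ _ => h.mem σ _, ?_⟩
  rw [P.res_prod _ _ fun σ _ => h.mem σ _, map_prod]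
  exact Finset.prod_congr rfl fun σ _ => h.res σ _

theorem uval_eq (h : RedF P y s X) (ℓ : Fin q → Fin (n + 1) → F) (i : Fin q) :
    P.O.valuation (uu ℓ y i) = ∏ σ, P.O.valuation (s σ) ↔ ∏ σ, dt (ℓ i) (X σ) ≠ 0 := by
  have h0 : P.O.valuation (∏ σ, s σ) ≠ 0 := by
    rw [map_prod]
    exact h.sval_ne
  rw [← (map_ne_zero (algebraMap F P.K)), ← (h.ures ℓ i).2, P.res_ne_zero (h.ures ℓ i).1, map_div₀,
    div_eq_one_iff_eq h0, map_prod]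

/-- number of hyperplanes which meet the cycle -/
theorem card_le (h : RedF P y s X) (ℓ : Fin q → Fin (n + 1) → F)
    (hG : ∀ z : Fin (n + 1) → F, z ≠ 0 → ∀ s : Finset (Fin q), (∀ i ∈ s, dt (ℓ i) z = 0) → s.card ≤ n)
    (T : Finset (Fin q)) (hT : ∀ i ∈ T, ∏ σ, dt (ℓ i) (X σ) = 0) : T.card ≤ r * n := by
  classical
  have h1 : T ⊆ Finset.univ.biUnion fun σ : Fin r => univ.filter fun i => dt (ℓ i) (X σ) = 0 := by
    intro i hi
    obtain ⟨σ, -, hσ⟩ := Finset.prod_eq_zero_iff.1 (hT i hi)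
    exact Finset.mem_biUnion.2 ⟨σ, Finset.mem_univ _, Finset.mem_filter.2 ⟨Finset.mem_univ _, hσ⟩⟩
  refine (Finset.card_le_card h1).trans (Finset.card_biUnion_le.trans ?_)
  refine (Finset.sum_le_sum (g := fun _ => n) fun σ _ => ?_).trans (by simp)
  exact hG _ (h.X0 σ) _ fun i hi => (Finset.mem_filter.1 hi).2

end RedF

/-- The slopes of the units. -/
structure Slp (F : Type u) {κ : Type u} [Field F] [Field κ] [Algebra F κ] {q : ℕ} (u : Fin q → κ) (μ : κ) (M : ℕ)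
    (w : Fin q → ℤ) : Prop where
  M0 : 0 < M
  μ0 : μ ≠ 0
  u0 : ∀ g, u g ≠ 0
  eq : ∀ g h, ∃ c : F, c ≠ 0 ∧ (u g / u h) ^ M = algebraMap F κ c * μ ^ (w g - w h)

namespace Slp

variable {u : Fin q → κ} {μ : κ} {M : ℕ} {w : Fin q → ℤ}

theorem symm (h : Slp F u μ M w) : Slp F u μ⁻¹ M (fun g => - w g) where
  M0 := h.M0
  μ0 := inv_ne_zero h.μ0
  u0 := h.u0
  eq := fun g g' => by
    obtain ⟨c, hc, h1⟩ := h.eq g g'
    refine ⟨c, hc, ?_⟩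
    rw [h1, inv_zpow, ← zpow_neg]
    congr 2
    ring

theorem cst [IsAlgClosed F] (h : Slp F u μ M w) (g g' : Fin q) (hw : w g = w g') : Cst F (u g / u g') := by
  obtain ⟨c, -, h1⟩ := h.eq g g'
  rw [hw, sub_self, zpow_zero, mul_one] at h1
  exact cst_of_pow _ M h.M0 ⟨c, h1⟩

theorem vpow (h : Slp F u μ M w) (P : Pla F κ) (g g' : Fin q) :
    P.O.valuation (u g) ^ M = P.O.valuation μ ^ (w g - w g') * P.O.valuation (u g') ^ M := by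
  obtain ⟨c, hc, h1⟩ := h.eq g g'
  have h2 := congrArg P.O.valuation h1
  have h3 : P.O.valuation (u g') ≠ 0 := (Valuation.ne_zero_iff _).2 (h.u0 g')
  rw [map_mul, val_cst P c hc, one_mul, map_pow, map_div₀, map_zpow₀, div_pow, div_eq_iff (pow_ne_zero _ h3)] at h2
  exact h2

theorem le_iff (h : Slp F u μ M w) (P : Pla F κ) (hμ : P.O.valuation μ < 1) (g g' : Fin q) :
    P.O.valuation (u g) ≤ P.O.valuation (u g') ↔ w g' ≤ w g := by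
  have h3 : 0 < P.O.valuation (u g') := zero_lt_iff.2 ((Valuation.ne_zero_iff _).2 (h.u0 g'))
  have h4 : 0 < P.O.valuation μ := zero_lt_iff.2 ((Valuation.ne_zero_iff _).2 h.μ0)
  rw [← pow_le_pow_iff_left₀ zero_le zero_le h.M0.ne', h.vpow P g g', mul_le_iff_le_one_left (pow_pos h3 _)]
  rw [zpow_le_one_iff_right_of_lt_one₀ h4 hμ]
  omega

theorem eq_of (h : Slp F u μ M w) (P : Pla F κ) (hμ : P.O.valuation μ = 1) (g g' : Fin q) :
    P.O.valuation (u g) = P.O.valuation (u g') := by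
  have h1 := h.vpow P g g'
  rw [hμ, one_zpow, one_mul] at h1
  exact (pow_left_inj₀ zero_le zero_le h.M0.ne').1 h1

end Slp

section

variable {P : Pla F κ} {y : Fin r → Fin (n + 1) → κ} {s : Fin r → κ} {X : Fin r → Fin (n + 1) → F}
  {ℓ : Fin q → Fin (n + 1) → F} {μ : κ} {M : ℕ} {w : Fin q → ℤ}

/-- over the zeros of `μ` -/
theorem over0 (h : RedF P y s X) (hS : Slp F (uu ℓ y) μ M w) (hμ : P.O.valuation μ < 1)
    (hne : ∃ g, ∏ σ, dt (ℓ g) (X σ) ≠ 0) (g : Fin q) : ∏ σ, dt (ℓ g) (X σ) ≠ 0 ↔ ∀ h, w g ≤ w h := by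
  constructor
  · intro hg g'
    rw [← hS.le_iff P hμ, (h.uval_eq ℓ g).2 hg]
    exact h.uval_le ℓ g'
  · intro hg
    obtain ⟨g0, hg0⟩ := hne
    rw [← h.uval_eq ℓ g]
    refine le_antisymm (h.uval_le ℓ g) ?_
    rw [← (h.uval_eq ℓ g0).2 hg0, hS.le_iff P hμ]
    exact hg g0

/-- elsewhere -/
theorem over1 (h : RedF P y s X) (hS : Slp F (uu ℓ y) μ M w) (hμ : P.O.valuation μ = 1)
    (hne : ∃ g, ∏ σ, dt (ℓ g) (X σ) ≠ 0) (g : Fin q) : ∏ σ, dt (ℓ g) (X σ) ≠ 0 := by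
  obtain ⟨g0, hg0⟩ := hne
  rw [← h.uval_eq ℓ g, hS.eq_of P hμ g g0]
  exact (h.uval_eq ℓ g0).2 hg0

theorem exists_ne (h : RedF P y s X)
    (hG : ∀ z : Fin (n + 1) → F, z ≠ 0 → ∀ s : Finset (Fin q), (∀ i ∈ s, dt (ℓ i) z = 0) → s.card ≤ n)
    (hq : r * n < q) : ∃ g, ∏ σ, dt (ℓ g) (X σ) ≠ 0 := by
  by_contra hcon
  push Not at hcon
  have h1 := h.card_le ℓ hG Finset.univ fun i _ => hcon i
  rw [Finset.card_univ, Fintype.card_fin] at h1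
  omega

theorem cst_res (h : RedF P y s X) (g g' : Fin q) (c : F) (hc : uu ℓ y g = algebraMap F κ c * uu ℓ y g') :
    ∏ σ, dt (ℓ g) (X σ) = c * ∏ σ, dt (ℓ g') (X σ) := by
  apply (algebraMap F P.K).injective
  rw [← (h.ures ℓ g).2, hc, mul_div_assoc, P.res_mul (P.h c) (h.ures ℓ g').1, P.res_cst, (h.ures ℓ g').2, map_mul]

theorem half [IsAlgClosed F] (htr : rk F (Set.univ : Set κ) ≤ 1)
    (hG : ∀ z : Fin (n + 1) → F, z ≠ 0 → ∀ s : Finset (Fin q), (∀ i ∈ s, dt (ℓ i) z = 0) → s.card ≤ n)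
    (hT : ∀ (V G : Finset (Fin q)) (p : ℕ), 1 ≤ p → Disjoint V G → 2 * p * n + 2 ≤ 2 * G.card + V.card →
      ¬ Twin V G p ℓ) (hq : r * n < q) (hy : ∀ σ, y σ ≠ 0)
    (hS : Slp F (uu ℓ y) μ M w) (V : Finset (Fin q)) (hV : ∀ g, g ∈ V ↔ ∀ h, w g ≤ w h)
    (hVc : V.card + 2 * (r * n) + 2 ≤ 2 * q) (P₀ : Pla F κ) (hP₀ : P₀.O.valuation μ < 1) :
    ∃ X₀ : Fin r → Fin (n + 1) → F, (∀ σ, X₀ σ ≠ 0) ∧ (∀ g, ∏ σ, dt (ℓ g) (X₀ σ) ≠ 0 ↔ g ∈ V) ∧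
      ∀ (P : Pla F κ) (s : Fin r → κ) (X : Fin r → Fin (n + 1) → F), RedF P y s X → P.O.valuation μ < 1 →
        ∃ π : Equiv.Perm (Fin r), ∀ σ, ∃ t : F, t ≠ 0 ∧ X σ = t • X₀ (π σ) := by
  have hμO : μ⁻¹ ∉ P₀.O := by
    rw [← P₀.O.valuation_le_one_iff, map_inv₀, not_le]
    exact (one_lt_inv₀ (zero_lt_iff.2 ((Valuation.ne_zero_iff _).2 hS.μ0))).2 hP₀
  obtain ⟨s₀, X₀, h₀⟩ := exists_redF htr P₀ _ hμO y hy
  have hV₀ : ∀ g, ∏ σ, dt (ℓ g) (X₀ σ) ≠ 0 ↔ g ∈ V := fun g =>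
    (over0 h₀ hS hP₀ (exists_ne h₀ hG hq) g).trans (hV g).symm
  refine ⟨X₀, h₀.X0, hV₀, fun P s X h hP => ?_⟩
  have hVX : ∀ g, ∏ σ, dt (ℓ g) (X σ) ≠ 0 ↔ g ∈ V := fun g =>
    (over0 h hS hP (exists_ne h hG hq) g).trans (hV g).symm
  obtain ⟨j₀, hj₀⟩ := exists_ne h₀ hG hq
  have hj₀V := (hV₀ j₀).1 hj₀
  refine twin_match ℓ hG hT V hVc X X₀ h.X0 h₀.X0 hVX hV₀
    ((∏ σ, dt (ℓ j₀) (X σ)) / ∏ σ, dt (ℓ j₀) (X₀ σ)) (div_ne_zero ((hVX j₀).2 hj₀V) hj₀) fun j hj => ?_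
  have hw : w j = w j₀ := le_antisymm ((hV j).1 hj j₀) ((hV j₀).1 hj₀V j)
  obtain ⟨c, hc⟩ := hS.cst j j₀ hw
  have hc' : uu ℓ y j = algebraMap F κ c * uu ℓ y j₀ := by
    rw [← hc, div_mul_cancel₀ _ (hS.u0 j₀)]
  rw [cst_res h j j₀ c hc', cst_res h₀ j j₀ c hc']
  field_simp

end

end Pool.Agent.FIN
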