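import Pool.Agent.Helper97.FIN.Core

/-!
# FIN: the algebraic core, counting
-/

set_option autoImplicit false

namespace Pool.Agent.FIN

open Pool.Agent.GS Finset

universe u

variable {F κ : Type u} [Field F] [Field κ] [Algebra F κ] {n q r : ℕ}

theorem numA {n q r e N : ℕ} (he : e < n) (hq2 : 2 * n + 2 * r ≤ q + 1) (hN : N ≤ 2 * r) :
    e * (n + 1 - e) < (q - N) * (n - e) := by
  obtain ⟨d, hd⟩ : ∃ d, n = e + 1 + d := ⟨n - e - 1, by omega⟩
  obtain ⟨a, ha⟩ : ∃ a, q - N = 2 * n - 1 + a := ⟨q - N - (2 * n - 1), by omega⟩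
  have h1 : n + 1 - e = d + 2 := by omega
  have h2 : n - e = d + 1 := by omega
  have h3 : 2 * n - 1 = 2 * e + 2 * d + 1 := by omega
  rw [ha, h1, h2, h3]
  nlinarith

theorem numB {n q r e N : ℕ} (he : e + 2 ≤ n) (hq3 : 4 * r + 4 * r * n + 3 * (n - 2) < 4 * q)
    (hN : N + q ≤ 2 * r + 2 * (r * n)) (hNq : N ≤ q) : e * (n + 1 - e) < (q - N) * (n - e) := by
  obtain ⟨d, hd⟩ : ∃ d, n = e + 2 + d := ⟨n - e - 2, by omega⟩
  obtain ⟨a, ha⟩ : ∃ a, q = N + a := ⟨q - N, by omega⟩
  have h1 : n + 1 - e = d + 3 := by omega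
  have h2 : n - e = d + 2 := by omega
  have h3 : n - 2 = e + d := by omega
  have h4 : 3 * (e + d) < 2 * a := by
    have h5 : 4 * r * n = 4 * (r * n) := by ring
    rw [h3, h5] at hq3
    omega
  have h6 : q - N = a := by omega
  rw [h6, h1, h2]
  nlinarith

theorem count_of (ℓ : Fin q → Fin (n + 1) → F)
    (h : ∀ B : Fin (n + 1) → Fin q, Function.Injective B → (Matrix.of fun a j => ℓ (B a) j).det ≠ 0)
    (z : Fin (n + 1) → F) (hz : z ≠ 0) (s : Finset (Fin q)) (hs : ∀ i ∈ s, dt (ℓ i) z = 0) : s.card ≤ n := by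
  by_contra hcon
  push Not at hcon
  obtain ⟨B, hB, hBc⟩ := Finset.exists_subset_card_eq (show n + 1 ≤ s.card from hcon)
  let e := B.orderEmbOfFin hBc
  refine hz (Matrix.eq_zero_of_mulVec_eq_zero (h e e.injective) ?_)
  funext a
  exact hs _ (hB (B.orderEmbOfFin_mem hBc a))

/-- the linear map `v ↦ v(x)` -/
def ev (x : Fin (n + 1) → κ) : (Fin (n + 1) → F) →ₗ[F] κ where
  toFun v := lin v x
  map_add' v w := by
    unfold lin
    rw [← Finset.sum_add_distrib]
    exact Finset.sum_congr rfl fun j _ => by rw [Pi.add_apply, map_add, add_mul]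
  map_smul' c v := by
    unfold lin
    rw [RingHom.id_apply, Finset.smul_sum]
    exact Finset.sum_congr rfl fun j _ => by
      rw [Pi.smul_apply, smul_eq_mul, map_mul, Algebra.smul_def, mul_assoc]

theorem finrank_ker (x : Fin (n + 1) → κ) (h : ∃ a b, ¬ Cst F (x a / x b)) :
    Module.finrank F (LinearMap.ker (ev (F := F) x)) < n := by
  classical
  obtain ⟨a, b, hab⟩ := h
  have h1 := LinearMap.finrank_range_add_finrank_ker (ev (F := F) x)
  rw [Module.finrank_fintype_fun_eq_card, Fintype.card_fin] at h1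
  have hmem : ∀ c, x c ∈ LinearMap.range (ev (F := F) x) := by
    intro c
    refine ⟨Pi.single c 1, ?_⟩
    show ∑ j, algebraMap F κ ((Pi.single c 1 : Fin (n + 1) → F) j) * x j = x c
    rw [Finset.sum_eq_single c]
    · rw [Pi.single_eq_same, map_one, one_mul]
    · intro j _ hj
      rw [Pi.single_eq_of_ne hj, map_zero, zero_mul]
    · intro h
      exact absurd (Finset.mem_univ _) h
  have hli : LinearIndependent F ![(⟨x a, hmem a⟩ : LinearMap.range (ev (F := F) x)), ⟨x b, hmem b⟩] := by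
    rw [LinearIndependent.pair_iff]
    intro s t hst
    have h2 : s • x a + t • x b = 0 := congrArg Subtype.val hst
    rw [Algebra.smul_def, Algebra.smul_def] at h2
    have hxb : x b ≠ 0 := by
      intro h0
      apply hab
      rw [h0, div_zero]
      exact ⟨0, (map_zero _).symm⟩
    have hs : s = 0 := by
      by_contra hs
      apply hab
      refine ⟨-t / s, ?_⟩
      have hs' : algebraMap F κ s ≠ 0 := (map_ne_zero _).2 hs
      rw [map_div₀, map_neg, div_eq_div_iff hxb hs']
      linear_combination h2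
    refine ⟨hs, ?_⟩
    rw [hs, map_zero, zero_mul, zero_add] at h2
    exact (map_eq_zero _).1 ((mul_eq_zero.1 h2).resolve_right hxb)
  have h3 := hli.fintype_card_le_finrank
  rw [Fintype.card_fin] at h3
  omega

/-- incidences -/
theorem inc_le (ℓ : Fin q → Fin (n + 1) → F)
    (hG : ∀ z : Fin (n + 1) → F, z ≠ 0 → ∀ s : Finset (Fin q), (∀ i ∈ s, dt (ℓ i) z = 0) → s.card ≤ n)
    [DecidableEq F] (X : Fin r → Fin (n + 1) → F) (hX : ∀ σ, X σ ≠ 0) :
    ∑ i, (univ.filter fun σ => dt (ℓ i) (X σ) = 0).card ≤ r * n := by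
  have h1 : ∑ i, (univ.filter fun σ => dt (ℓ i) (X σ) = 0).card =
      ∑ σ, (univ.filter fun i => dt (ℓ i) (X σ) = 0).card := by
    simp only [Finset.card_filter]
    exact Finset.sum_comm
  rw [h1]
  refine (Finset.sum_le_sum (g := fun _ => n) fun σ _ => ?_).trans (by simp)
  exact hG _ (hX σ) _ fun i hi => (Finset.mem_filter.1 hi).2

theorem core [IsAlgClosed F] (htr : rk F (Set.univ : Set κ) ≤ 1)
    (hq1 : 3 * r * n + 2 ≤ 2 * q) (hq2 : 2 * n + 2 * r ≤ q + 1)
    (hq3 : 4 * r + 4 * r * n + 3 * (n - 2) < 4 * q) (ℓ : Fin q → Fin (n + 1) → F) (hℓ : Ok ℓ) (s0 : Fin r)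
    (y : Fin r → Fin (n + 1) → κ) (hu : ∀ i, uu ℓ y i ≠ 0) (hy : ∃ a b, ¬ Cst F (y s0 a / y s0 b))
    (hrk : Rk F (uu ℓ y) 1) : False := by
  classical
  have hrn : 3 * r * n = 3 * (r * n) := by ring
  rw [hrn] at hq1
  have hG := count_of ℓ hℓ.gp
  have hq : r * n < q := by omega
  have hr : 1 ≤ r := by
    have := s0.2
    omega
  have hlin : ∀ i σ, lin (ℓ i) (y σ) ≠ 0 := fun i σ h0 => hu i (Finset.prod_eq_zero (Finset.mem_univ σ) h0)
  have hq0 : 0 < q := by omega
  have hy0 : ∀ σ, y σ ≠ 0 := by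
    intro σ h0
    apply hlin ⟨0, hq0⟩ σ
    rw [h0]
    unfold lin
    exact Finset.sum_eq_zero fun j _ => by rw [Pi.zero_apply, mul_zero]
  set x := y s0 with hxdef
  set e := Module.finrank F (LinearMap.ker (ev (F := F) x)) with hedef
  have he : e < n := finrank_ker x hy
  have hR : ∀ v, v ∈ LinearMap.ker (ev (F := F) x) ↔ lin v x = 0 := fun v => LinearMap.mem_ker
  -- a label function with few values gives a contradiction
  have hthin : ∀ (L : Type) [DecidableEq L] (lab : Fin q → L), (∀ i j, lab i = lab j → Sim ℓ x i j) →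
      e * (n + 1 - e) < (q - (univ.image lab).card) * (n - e) → False := by
    intro L _ lab hlab hlt
    obtain ⟨ρ, h1, h2, h3⟩ := thin_of ℓ x (fun i => hlin i s0) lab hlab e _ hR rfl
    exact hℓ.thin ρ e h1 he (by rw [h2]; exact hlt) h3
  -- nonconstant ratios
  have hnc : ∀ i, ∃ j, ¬ Sim ℓ x i j := by
    intro i
    by_contra hcon
    push Not at hcon
    refine hthin Unit (fun _ => ()) (fun a b _ => ?_) (numA (r := r) he hq2 ((Finset.card_le_univ _).trans ?_))
    · obtain ⟨ca, ha⟩ := hcon a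
      obtain ⟨cb, hb⟩ := hcon b
      refine ⟨cb / ca, ?_⟩
      rw [map_div₀, ← ha, ← hb]
      have h1 : lin (ℓ i) x ≠ 0 := hlin i s0
      rw [div_div_div_cancel_left' _ _ h1]
    · rw [Fintype.card_unit]
      omega
  -- places
  have hinv : ∀ (P : Pla F κ) (z : κ), z ≠ 0 → P.O.valuation z < 1 → z⁻¹ ∉ P.O := by
    intro P z hz hP
    rw [← P.O.valuation_le_one_iff, map_inv₀, not_le]
    exact (one_lt_inv₀ (zero_lt_iff.2 ((Valuation.ne_zero_iff _).2 hz))).2 hP
  have hplace : ∀ i, ∃ (P : Pla F κ) (s : Fin r → κ) (X : Fin r → Fin (n + 1) → F),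
      RedF P y s X ∧ dt (ℓ i) (X s0) = 0 := by
    intro i
    obtain ⟨j, hj⟩ := hnc i
    obtain ⟨P, hP⟩ := exists_pla _ hj
    obtain ⟨s, X, h⟩ := exists_redF htr P _ (hinv P _ (div_ne_zero (hlin i s0) (hlin j s0)) hP) y hy0
    refine ⟨P, s, X, h, ?_⟩
    by_contra h0
    have h1 := (h.val_eq s0 (ℓ i)).2 h0
    have h2 := h.val_le s0 (ℓ j)
    rw [← h1] at h2
    rw [map_div₀, div_lt_one₀ (zero_lt_iff.2 ((Valuation.ne_zero_iff _).2 (hlin j s0)))] at hP
    exact not_lt.2 h2 hP
  -- the unit `μ`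
  set i1 : Fin q := ⟨0, hq0⟩
  obtain ⟨P1, s1, Y1, hR1, hY1⟩ := hplace i1
  obtain ⟨g0, hg0⟩ := exists_ne hR1 hG hq
  have hz1 : ∏ σ, dt (ℓ i1) (Y1 σ) = 0 := Finset.prod_eq_zero (Finset.mem_univ s0) hY1
  set μ := uu ℓ y i1 / uu ℓ y g0 with hμdef
  have hμ0 : μ ≠ 0 := div_ne_zero (hu _) (hu _)
  have hvμ : P1.O.valuation μ < 1 := by
    rw [hμdef, map_div₀, div_lt_one₀ (zero_lt_iff.2 ((Valuation.ne_zero_iff _).2 (hu g0))),
      (hR1.uval_eq ℓ g0).2 hg0]
    refine lt_of_le_of_ne (hR1.uval_le ℓ i1) fun h0 => ?_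
    exact (hR1.uval_eq ℓ i1).1 h0 hz1
  have hμm : ∀ m : ℤ, Cst F (μ ^ m) → m = 0 := by
    rintro m ⟨c, hc⟩
    have hc0 : c ≠ 0 := by
      rintro rfl
      rw [map_zero] at hc
      exact zpow_ne_zero _ hμ0 hc
    have h1 := congrArg P1.O.valuation hc
    rw [val_cst P1 c hc0, map_zpow₀] at h1
    have h0 : 0 < P1.O.valuation μ := zero_lt_iff.2 ((Valuation.ne_zero_iff _).2 hμ0)
    have h2 := (zpow_le_one_iff_right_of_lt_one₀ h0 hvμ).1 h1.le
    have h3 := (one_le_zpow_iff_right_of_lt_one₀ h0 hvμ).1 h1.ge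
    omega
  obtain ⟨M, w, hM, hw0, hw1, hw⟩ := slopes (uu ℓ y) hrk i1 g0 (hu _) (hu _) hμm
  have hS : Slp F (uu ℓ y) μ M w := by
    refine ⟨hM, hμ0, hu, fun g h => ?_⟩
    obtain ⟨c, hc, h1⟩ := hw g (hu g)
    obtain ⟨c', hc', h2⟩ := hw h (hu h)
    refine ⟨c / c', div_ne_zero hc hc', ?_⟩
    rw [← div_div_div_cancel_right₀ (hu g0), div_pow, h1, h2, map_div₀, zpow_sub₀ hμ0, mul_div_mul_comm]
  let V0 : Finset (Fin q) := univ.filter fun g => ∀ h, w g ≤ w h
  let V1 : Finset (Fin q) := univ.filter fun g => ∀ h, - w g ≤ - w h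
  have hV0 : ∀ g, g ∈ V0 ↔ ∀ h, w g ≤ w h := fun g => by simp [V0]
  have hV1 : ∀ g, g ∈ V1 ↔ ∀ h, - w g ≤ - w h := fun g => by simp [V1]
  have hdis : ∀ g, g ∈ V0 → g ∉ V1 := by
    intro g h0 h1
    have h2 := (hV0 g).1 h0 g0
    have h3 := (hV1 g).1 h1 i1
    rw [hw0] at h2
    rw [hw1] at h3
    omega
  obtain ⟨P2, hP2⟩ := exists_pla (μ⁻¹) (fun h => by
    have := hμm (-1) (by rwa [zpow_neg_one])
    omega)
  obtain ⟨s2, Y2, hR2⟩ := exists_redF htr P2 _ (hinv P2 _ (inv_ne_zero hμ0) hP2) y hy0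
  have hc1 : q ≤ V0.card + r * n := by
    have h1 := hR1.card_le ℓ hG V0ᶜ fun i hi => by
      by_contra h0
      exact (Finset.mem_compl.1 hi) ((hV0 i).2 ((over0 hR1 hS hvμ ⟨g0, hg0⟩ i).1 h0))
    rw [Finset.card_compl, Fintype.card_fin] at h1
    omega
  have hc2 : q ≤ V1.card + r * n := by
    have h1 := hR2.card_le ℓ hG V1ᶜ fun i hi => by
      by_contra h0
      exact (Finset.mem_compl.1 hi) ((hV1 i).2 ((over0 hR2 hS.symm hP2 (exists_ne hR2 hG hq) i).1 h0))
    rw [Finset.card_compl, Fintype.card_fin] at h1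
    omega
  have hc3 : V0.card + V1.card ≤ q := by
    rw [← Finset.card_union_of_disjoint (Finset.disjoint_left.2 hdis)]
    refine (Finset.card_le_univ _).trans ?_
    rw [Fintype.card_fin]
  obtain ⟨X0, hX0, hX0V, hX0u⟩ := half htr hG hℓ.twin hq hy0 hS V0 hV0 (by omega) P1 hvμ
  obtain ⟨X1, hX1, hX1V, hX1u⟩ := half htr hG hℓ.twin hq hy0 hS.symm V1 hV1 (by omega) P2 hP2
  rcases Nat.lt_or_ge (e + 1) n with hen | hen
  · -- general case
    let S0 : Fin q → Finset (Fin r) := fun i => univ.filter fun σ => dt (ℓ i) (X0 σ) = 0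
    let S1 : Fin q → Finset (Fin r) := fun i => univ.filter fun σ => dt (ℓ i) (X1 σ) = 0
    have hi0 : ∑ i, (S0 i).card ≤ r * n := inc_le ℓ hG X0 hX0
    have hi1 : ∑ i, (S1 i).card ≤ r * n := inc_le ℓ hG X1 hX1
    have hm0 : ∀ i τ, S0 i = {τ} → ∀ σ, dt (ℓ i) (X0 σ) = 0 ↔ σ = τ := by
      intro i τ h σ
      have h1 : σ ∈ S0 i ↔ dt (ℓ i) (X0 σ) = 0 := by simp [S0]
      rw [← h1, h, Finset.mem_singleton]
    have hm1 : ∀ i τ, S1 i = {τ} → ∀ σ, dt (ℓ i) (X1 σ) = 0 ↔ σ = τ := by
      intro i τ h σ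
      have h1 : σ ∈ S1 i ↔ dt (ℓ i) (X1 σ) = 0 := by simp [S1]
      rw [← h1, h, Finset.mem_singleton]
    have hc0 : ∀ i, ∃ τ : Fin r, (S0 i).card = 1 → S0 i = {τ} := by
      intro i
      by_cases h : (S0 i).card = 1
      · obtain ⟨τ, hτ⟩ := Finset.card_eq_one.1 h
        exact ⟨τ, fun _ => hτ⟩
      · exact ⟨s0, fun h' => absurd h' h⟩
    have hc1' : ∀ i, ∃ τ : Fin r, (S1 i).card = 1 → S1 i = {τ} := by
      intro i
      by_cases h : (S1 i).card = 1
      · obtain ⟨τ, hτ⟩ := Finset.card_eq_one.1 h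
        exact ⟨τ, fun _ => hτ⟩
      · exact ⟨s0, fun h' => absurd h' h⟩
    choose τ0 hτ0 using hc0
    choose τ1 hτ1 using hc1'
    let lab : Fin q → (Fin r ⊕ Fin r) ⊕ Fin q := fun i =>
      if i ∈ V1 ∧ (S0 i).card = 1 then Sum.inl (Sum.inl (τ0 i))
      else if i ∈ V0 ∧ (S1 i).card = 1 then Sum.inl (Sum.inr (τ1 i)) else Sum.inr i
    let B : Finset (Fin q) := univ.filter fun i => ¬ (i ∈ V1 ∧ (S0 i).card = 1) ∧ ¬ (i ∈ V0 ∧ (S1 i).card = 1)
    have hBq : q + B.card ≤ 2 * (r * n) := by
      have h1 : ∑ i : Fin q, (1 + if i ∈ B then 1 else 0) ≤ ∑ i, ((S0 i).card + (S1 i).card) := by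
        refine Finset.sum_le_sum fun i _ => ?_
        have h2 : i ∉ V0 → 1 ≤ (S0 i).card := by
          intro hi
          have h3 : ∏ σ, dt (ℓ i) (X0 σ) = 0 := by
            by_contra h0
            exact hi ((hX0V i).1 h0)
          obtain ⟨σ, -, hσ⟩ := Finset.prod_eq_zero_iff.1 h3
          exact Finset.card_pos.2 ⟨σ, Finset.mem_filter.2 ⟨Finset.mem_univ _, hσ⟩⟩
        have h2' : i ∉ V1 → 1 ≤ (S1 i).card := by
          intro hi
          have h3 : ∏ σ, dt (ℓ i) (X1 σ) = 0 := by
            by_contra h0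
            exact hi ((hX1V i).1 h0)
          obtain ⟨σ, -, hσ⟩ := Finset.prod_eq_zero_iff.1 h3
          exact Finset.card_pos.2 ⟨σ, Finset.mem_filter.2 ⟨Finset.mem_univ _, hσ⟩⟩
        by_cases hi0 : i ∈ V0
        · have hi1 := hdis i hi0
          have h4 := h2' hi1
          split_ifs with hB
          · have h5 := (Finset.mem_filter.1 hB).2.2
            have h6 : (S1 i).card ≠ 1 := fun h => h5 ⟨hi0, h⟩
            omega
          · omega
        · have h4 := h2 hi0
          by_cases hi1 : i ∈ V1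
          · split_ifs with hB
            · have h5 := (Finset.mem_filter.1 hB).2.1
              have h6 : (S0 i).card ≠ 1 := fun h => h5 ⟨hi1, h⟩
              omega
            · omega
          · have h5 := h2' hi1
            split_ifs <;> omega
      rw [Finset.sum_add_distrib, Finset.sum_add_distrib, Finset.sum_ite_mem, Finset.univ_inter] at h1
      simp only [Finset.sum_const, Finset.card_univ, Fintype.card_fin, smul_eq_mul, mul_one] at h1
      omega
    have hNB : (univ.image lab).card ≤ 2 * r + B.card := by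
      have h1 : univ.image lab ⊆ (univ.image Sum.inl) ∪ B.image Sum.inr := by
        intro l hl
        obtain ⟨i, -, rfl⟩ := Finset.mem_image.1 hl
        by_cases h1 : i ∈ V1 ∧ (S0 i).card = 1
        · refine Finset.mem_union_left _ ?_
          simp only [lab, if_pos h1]
          exact Finset.mem_image_of_mem _ (Finset.mem_univ _)
        · by_cases h2 : i ∈ V0 ∧ (S1 i).card = 1
          · refine Finset.mem_union_left _ ?_
            simp only [lab, if_neg h1, if_pos h2]
            exact Finset.mem_image_of_mem _ (Finset.mem_univ _)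
          · refine Finset.mem_union_right _ ?_
            simp only [lab, if_neg h1, if_neg h2]
            exact Finset.mem_image_of_mem _ (Finset.mem_filter.2 ⟨Finset.mem_univ _, h1, h2⟩)
      refine (Finset.card_le_card h1).trans ((Finset.card_union_le _ _).trans ?_)
      refine Nat.add_le_add (Finset.card_image_le.trans ?_) Finset.card_image_le
      rw [Finset.card_univ, Fintype.card_sum, Fintype.card_fin]
      omega
    refine hthin _ lab ?_ (numB (r := r) hen hq3 (by omega) ?_)
    · intro i j hij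
      by_cases h1 : i ∈ V1 ∧ (S0 i).card = 1
      · by_cases h2 : j ∈ V1 ∧ (S0 j).card = 1
        · simp only [lab, if_pos h1, if_pos h2, Sum.inl.injEq] at hij
          refine sim_of htr hG hq hy0 hS X0 hX0u s0 i j ?_ ?_ (τ0 i) (hm0 i _ (hτ0 i h1.2)) ?_
          · intro h
            have := (hV1 i).1 h1.1 h
            omega
          · intro h
            have := (hV1 j).1 h2.1 h
            omega
          · rw [hij]
            exact hm0 j _ (hτ0 j h2.2)
        · by_cases h3 : j ∈ V0 ∧ (S1 j).card = 1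
          · simp only [lab, if_pos h1, if_neg h2, if_pos h3] at hij
            simp at hij
          · simp only [lab, if_pos h1, if_neg h2, if_neg h3] at hij
            simp at hij
      · by_cases h1' : i ∈ V0 ∧ (S1 i).card = 1
        · by_cases h2 : j ∈ V1 ∧ (S0 j).card = 1
          · simp only [lab, if_neg h1, if_pos h1', if_pos h2] at hij
            simp at hij
          · by_cases h3 : j ∈ V0 ∧ (S1 j).card = 1
            · simp only [lab, if_neg h1, if_pos h1', if_neg h2, if_pos h3, Sum.inl.injEq, Sum.inr.injEq] at hij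
              refine sim_of htr hG hq hy0 hS.symm X1 hX1u s0 i j ?_ ?_ (τ1 i) (hm1 i _ (hτ1 i h1'.2)) ?_
              · intro h
                have := (hV0 i).1 h1'.1 h
                omega
              · intro h
                have := (hV0 j).1 h3.1 h
                omega
              · rw [hij]
                exact hm1 j _ (hτ1 j h3.2)
            · simp only [lab, if_neg h1, if_pos h1', if_neg h2, if_neg h3] at hij
              simp at hij
        · by_cases h2 : j ∈ V1 ∧ (S0 j).card = 1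
          · simp only [lab, if_neg h1, if_neg h1', if_pos h2] at hij
            simp at hij
          · by_cases h3 : j ∈ V0 ∧ (S1 j).card = 1
            · simp only [lab, if_neg h1, if_neg h1', if_neg h2, if_pos h3] at hij
              simp at hij
            · simp only [lab, if_neg h1, if_neg h1', if_neg h2, if_neg h3, Sum.inr.injEq] at hij
              subst hij
              exact ⟨1, by rw [map_one, div_self (hlin i s0)]⟩
    · refine Finset.card_image_le.trans ?_
      rw [Finset.card_univ, Fintype.card_fin]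
  · -- a line
    let Z : Fin r ⊕ Fin r → Fin (n + 1) → F := Sum.elim X0 X1
    have hZ0 : ∀ l, Z l ≠ 0 := by
      rintro (σ | σ)
      · exact hX0 σ
      · exact hX1 σ
    have hlabel : ∀ i, ∃ l, dt (ℓ i) (Z l) = 0 ∧ ∀ v, lin v x = 0 → dt v (Z l) = 0 := by
      intro i
      obtain ⟨P, s, X, h, h0⟩ := hplace i
      have hv : ∀ v, lin v x = 0 → dt v (X s0) = 0 := by
        intro v hv
        apply (algebraMap F P.K).injective
        rw [← h.res s0 v, ← hxdef, hv, zero_div, P.res_zero, map_zero]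
      have hne := exists_ne h hG hq
      rcases lt_trichotomy (P.O.valuation μ) 1 with hμ | hμ | hμ
      · obtain ⟨π, hπ⟩ := hX0u P s X h hμ
        obtain ⟨t, ht, hXt⟩ := hπ s0
        have hdt : ∀ v, dt v (X s0) = 0 → dt v (X0 (π s0)) = 0 := by
          intro v hv
          rw [hXt, dt_smul] at hv
          exact (mul_eq_zero.1 hv).resolve_left ht
        exact ⟨Sum.inl (π s0), hdt _ h0, fun v hv' => hdt v (hv v hv')⟩
      · exact absurd (Finset.prod_eq_zero (Finset.mem_univ s0) h0) (over1 h hS hμ hne i)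
      · have hμ' : P.O.valuation μ⁻¹ < 1 := by
          rw [map_inv₀]
          exact inv_lt_one_of_one_lt₀ hμ
        obtain ⟨π, hπ⟩ := hX1u P s X h hμ'
        obtain ⟨t, ht, hXt⟩ := hπ s0
        have hdt : ∀ v, dt v (X s0) = 0 → dt v (X1 (π s0)) = 0 := by
          intro v hv
          rw [hXt, dt_smul] at hv
          exact (mul_eq_zero.1 hv).resolve_left ht
        exact ⟨Sum.inr (π s0), hdt _ h0, fun v hv' => hdt v (hv v hv')⟩
    choose lab hlab using hlabel
    refine hthin _ lab ?_ (numA (r := r) he hq2 ((Finset.card_le_univ _).trans ?_))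
    · intro i j hij
      set z := Z (lab i) with hz
      let Kz : Submodule F (Fin (n + 1) → F) :=
        { carrier := {v | dt v z = 0}
          zero_mem' := by simp [dt]
          add_mem' := by
            intro a b ha hb
            simp only [Set.mem_setOf_eq, dt] at ha hb ⊢
            simp only [Pi.add_apply, add_mul, Finset.sum_add_distrib, ha, hb, add_zero]
          smul_mem' := by
            intro c a ha
            simp only [Set.mem_setOf_eq, dt] at ha ⊢
            simp only [Pi.smul_apply, smul_eq_mul, mul_assoc, ← Finset.mul_sum, ha, mul_zero] }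
      have hKz : Module.finrank F Kz < n + 1 := by
        obtain ⟨a, ha⟩ := Function.ne_iff.1 (hZ0 (lab i))
        have h1 : Kz < ⊤ := by
          rw [lt_top_iff_ne_top]
          intro h
          have h2 : (Pi.single a 1 : Fin (n + 1) → F) ∈ Kz := by rw [h]; trivial
          have h3 : dt (Pi.single a 1 : Fin (n + 1) → F) z = z a := by
            unfold dt
            rw [Finset.sum_eq_single a]
            · rw [Pi.single_eq_same, one_mul]
            · intro j _ hj
              rw [Pi.single_eq_of_ne hj, zero_mul]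
            · intro h
              exact absurd (Finset.mem_univ _) h
          exact ha (h3.symm.trans h2)
        have h2 := Submodule.finrank_lt_finrank_of_lt h1
        rwa [finrank_top, Module.finrank_fintype_fun_eq_card, Fintype.card_fin] at h2
      set R := LinearMap.ker (ev (F := F) x) with hRdef
      have hRK : R ⊔ Submodule.span F {ℓ i} ≤ Kz := by
        rw [sup_le_iff, Submodule.span_singleton_le_iff_mem]
        exact ⟨fun v hv => (hlab i).2 v ((hR v).1 hv), (hlab i).1⟩
      have hiR : ℓ i ∉ R := fun h => hlin i s0 ((hR _).1 h)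
      have hlt : R < R ⊔ Submodule.span F {ℓ i} := by
        refine lt_of_le_of_ne le_sup_left fun h => hiR ?_
        rw [h]
        exact Submodule.mem_sup_right (Submodule.mem_span_singleton_self _)
      have h1 := Submodule.finrank_lt_finrank_of_lt hlt
      have h2 : R ⊔ Submodule.span F {ℓ i} = Kz := by
        apply Submodule.eq_of_le_of_finrank_le hRK
        omega
      have h3 : ℓ j ∈ R ⊔ Submodule.span F {ℓ i} := by
        rw [h2]
        show dt (ℓ j) (Z (lab i)) = 0
        rw [hij]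
        exact (hlab j).1
      obtain ⟨v, hv, w', hw', h4⟩ := Submodule.mem_sup.1 h3
      obtain ⟨c, rfl⟩ := Submodule.mem_span_singleton.1 hw'
      have h5 : lin (ℓ j) x = algebraMap F κ c * lin (ℓ i) x := by
        have h6 : ev (F := F) x (ℓ j) = ev (F := F) x v + c • ev (F := F) x (ℓ i) := by
          rw [← h4, map_add, map_smul]
        rw [Algebra.smul_def] at h6
        have h7 : ev (F := F) x v = 0 := (hR v).1 hv
        rw [h7, zero_add] at h6
        exact h6
      have h8 : lin (ℓ i) x ≠ 0 := hlin i s0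
      refine ⟨c⁻¹, ?_⟩
      rw [h5, map_inv₀, div_mul_cancel_right₀ h8]
    · rw [Fintype.card_sum, Fintype.card_fin]
      omega

end Pool.Agent.FIN
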