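import Pool.Agent.Helper97.FIN.Defs
import Pool.Agent.Helper97.GH.Val
import Pool.Agent.Helper77.GS.Bottom

/-!
# FIN: places of a field of transcendence degree one over an algebraically closed field
-/

set_option autoImplicit false

namespace Pool.Agent.FIN

open Pool.Agent.GS Finset

universe u

variable {F κ : Type u} [Field F] [Field κ] [Algebra F κ] {n q r : ℕ}

theorem exists_pla [IsAlgClosed F] (z : κ) (hz : ¬ Cst F z) : ∃ P : Pla F κ, P.O.valuation z < 1 := by
  have hz' : ¬ IsAlgebraic F z := fun h => hz (cst_of_isAlgebraic z h)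
  let f : Polynomial F →+* κ := (Polynomial.aeval z).toRingHom
  have hf : RingHom.ker f = ⊥ := by
    rw [RingHom.ker_eq_bot_iff_eq_zero]
    intro p hp
    by_contra hp0
    exact hz' ⟨p, hp0, hp⟩
  have hX : (Ideal.span {(Polynomial.X : Polynomial F)}).IsPrime := by
    rw [Ideal.span_singleton_prime Polynomial.X_ne_zero]
    exact Polynomial.prime_X
  obtain ⟨O, hO, hu⟩ := Pool.Agent.Helper97.GH.exists_val f (Ideal.span {Polynomial.X}) (by
    rw [hf]
    exact bot_le)
  have hC : ∀ c : F, algebraMap F κ c ∈ O := by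
    intro c
    have := hO (Polynomial.C c)
    rwa [show f (Polynomial.C c) = algebraMap F κ c from Polynomial.aeval_C z c] at this
  refine ⟨⟨O, hC⟩, ?_⟩
  have h1 : f Polynomial.X = z := Polynomial.aeval_X z
  have h2 : ¬ IsUnit (⟨f Polynomial.X, hO _⟩ : O) := by
    rw [hu]
    exact not_not.2 (Ideal.mem_span_singleton_self _)
  have h3 : O.valuation ((⟨f Polynomial.X, hO _⟩ : O) : κ) < 1 :=
    (O.valuation_lt_one_iff _).1 ((IsLocalRing.mem_maximalIdeal _).2 h2)
  simpa only [h1] using h3

theorem mem_of_alg (O : ValuationSubring κ) (A : Subalgebra F κ) (hA : ∀ c ∈ A, c ≠ 0 → O.valuation c = 1) (b : κ)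
    (hb : IsAlgebraic A b) : b ∈ O := by
  obtain ⟨f, hf, hfb⟩ := hb
  by_contra hbO
  rw [← O.valuation_le_one_iff, not_le] at hbO
  have hv0 : O.valuation b ≠ 0 := by
    intro h
    rw [h] at hbO
    exact not_lt.2 zero_le hbO
  rw [Polynomial.aeval_eq_sum_range, Finset.sum_range_succ] at hfb
  have hle : ∀ c : A, O.valuation (c : κ) ≤ 1 := by
    intro c
    by_cases hc : (c : κ) = 0
    · rw [hc, map_zero]
      exact zero_le
    · exact (hA c c.2 hc).le
  have hlc : O.valuation ((f.coeff f.natDegree : A) : κ) = 1 := by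
    apply hA _ (f.coeff f.natDegree).2
    intro h
    apply hf
    rw [← Polynomial.leadingCoeff_eq_zero]
    exact Subtype.ext h
  have h1 : O.valuation (f.coeff f.natDegree • b ^ f.natDegree) = O.valuation b ^ f.natDegree := by
    rw [Algebra.smul_def, map_mul, map_pow]
    show O.valuation ((f.coeff f.natDegree : A) : κ) * _ = _
    rw [hlc, one_mul]
  have h2 : O.valuation (∑ x ∈ Finset.range f.natDegree, f.coeff x • b ^ x) < O.valuation b ^ f.natDegree := by
    apply Valuation.map_sum_lt _ (pow_ne_zero _ hv0)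
    intro i hi
    rw [Algebra.smul_def, map_mul, map_pow]
    show O.valuation ((f.coeff i : A) : κ) * _ < _
    refine lt_of_le_of_lt (mul_le_of_le_one_left' (hle _)) ?_
    exact pow_lt_pow_right₀ hbO (Finset.mem_range.1 hi)
  have h3 : f.coeff f.natDegree • b ^ f.natDegree = - ∑ x ∈ Finset.range f.natDegree, f.coeff x • b ^ x := by
    rw [eq_neg_iff_add_eq_zero, add_comm]
    exact hfb
  rw [h3, Valuation.map_neg] at h1
  exact absurd h1 h2.ne

theorem res_all [IsAlgClosed F] (htr : rk F (Set.univ : Set κ) ≤ 1) (P : Pla F κ) (z : κ) (hz : z ∉ P.O) (w : P.K) :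
    Cst F w := by
  by_contra hw
  have hw' : ¬ IsAlgebraic F w := fun h => hw (cst_of_isAlgebraic w h)
  obtain ⟨⟨a, ha⟩, hra⟩ := IsLocalRing.residue_surjective (R := P.O) w
  have hresa : P.res a = w := by
    rw [P.res_of_mem ha]
    exact hra
  have hpa : ∀ p : Polynomial F, Polynomial.aeval a p ∈ P.O ∧ P.res (Polynomial.aeval a p) = Polynomial.aeval w p := by
    intro p
    induction p using Polynomial.induction_on with
    | C c =>
      rw [Polynomial.aeval_C, Polynomial.aeval_C]
      exact ⟨P.h c, P.res_cst c⟩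
    | add p₁ p₂ h₁ h₂ =>
      rw [map_add, map_add, P.res_add h₁.1 h₂.1, h₁.2, h₂.2]
      exact ⟨P.O.add_mem _ _ h₁.1 h₂.1, rfl⟩
    | monomial m c h =>
      have h1 : ∀ b : κ, Polynomial.aeval b (Polynomial.C c * Polynomial.X ^ (m + 1)) =
          Polynomial.aeval b (Polynomial.C c * Polynomial.X ^ m) * b := by
        intro b
        rw [pow_succ, ← mul_assoc, map_mul _ _ Polynomial.X, Polynomial.aeval_X]
      have h2 : ∀ b : P.K, Polynomial.aeval b (Polynomial.C c * Polynomial.X ^ (m + 1)) =
          Polynomial.aeval b (Polynomial.C c * Polynomial.X ^ m) * b := by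
        intro b
        rw [pow_succ, ← mul_assoc, map_mul _ _ Polynomial.X, Polynomial.aeval_X]
      rw [h1, h2, P.res_mul h.1 ha, h.2, hresa]
      exact ⟨P.O.mul_mem _ _ h.1 ha, rfl⟩
  have hunit : ∀ c ∈ Algebra.adjoin F {a}, c ≠ 0 → P.O.valuation c = 1 := by
    intro c hc hc0
    rw [Algebra.adjoin_singleton_eq_range_aeval] at hc
    obtain ⟨p, rfl⟩ := hc
    have hp : p ≠ 0 := by
      rintro rfl
      exact hc0 (map_zero _)
    obtain ⟨h, h'⟩ := hpa p
    have h1 : Polynomial.aeval w p ≠ 0 := fun h0 => hw' ⟨p, hp, h0⟩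
    have h2 : P.res (Polynomial.aeval a p) ≠ 0 := by
      rw [h']
      exact h1
    exact (P.res_ne_zero h).1 h2
  have ha' : ¬ IsAlgebraic F a := by
    rintro ⟨p, hp, hpa0⟩
    obtain ⟨h, h'⟩ := hpa p
    apply hw'
    refine ⟨p, hp, ?_⟩
    rw [← h', hpa0, P.res_zero]
  have hcl : z ∈ cl F {a} := by
    have hind : (AlgebraicIndependent.matroid F κ).Indep {a} := by
      rw [indep_iff]
      have h1 : AlgebraicIndependent F (fun _ : Unit => a) := by
        rw [algebraicIndependent_unique_type_iff]
        exact ha'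
      have h2 := h1.comp (fun _ : ({a} : Set κ) => ()) (fun x y _ => Subsingleton.elim x y)
      convert h2 using 1
      funext x
      exact x.2
    have h1 : (AlgebraicIndependent.matroid F κ).eRk {a} = 1 := by
      rw [hind.eRk_eq_encard, Set.encard_singleton]
    by_contra hzc
    have h2 : (AlgebraicIndependent.matroid F κ).Indep (insert z {a}) := by
      rw [hind.insert_indep_iff_of_notMem (fun h => hzc (by rw [Set.mem_singleton_iff.1 h]; exact subset_cl _ rfl))]
      refine ⟨by simp, hzc⟩
    have h3 := ((AlgebraicIndependent.matroid F κ).eRk_mono (Set.subset_univ (insert z {a}))).trans htr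
    rw [h2.eRk_eq_encard, Set.encard_pair] at h3
    · exact absurd h3 (by decide)
    · rintro rfl
      exact hzc (subset_cl _ rfl)
  rw [mem_cl] at hcl
  exact hz (mem_of_alg P.O _ hunit z hcl)

end Pool.Agent.FIN
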