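import Pool.Agent.Helper97.FIN.Defs

/-!
# FIN: statements of the blocks (do not import; copy your statement)
-/

set_option autoImplicit false

namespace Pool.Agent.FIN

open Pool.Agent.GS MvPolynomial

universe u

/-- G1. PROOF. `T` = the coordinates of the `y a`, `z b` divided by one coordinate (`2 p n` elements), the factor `c'`; for `g ∈ G` all
coordinates of `ℓ g` except two (a nonzero minor of a `y a` and a `z b` on which `ℓ g` vanishes); for `j ∈ V` all coordinates except one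
(if the polynomial `∏ (A_a + T y_a(l)) - c' ∏ (B_b + T z_b(l))` in the coordinate `T = ℓ j l`, `y_1(l) ≠ 0`, is not zero, then `l`; if it is
zero, put `T = - A_1 / y_1(l)`: some `B_b + T z_b(l) = 0`, a linear relation with coefficients the minors `(l', l)` of `y_1`, `z_b`, one of
which is not zero), all coordinates of the others. All coordinates are algebraic over `T`, and `|T| < q (n + 1)`. -/
theorem not_twin {K : Type} [Field K] {n q : ℕ} (V G : Finset (Fin q)) (p : ℕ) (hp : 1 ≤ p) (hVG : Disjoint V G)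
    (h : 2 * p * n + 2 ≤ 2 * G.card + V.card) (a : Fin q × Fin (n + 1) → K) (ha : AlgebraicIndependent ℤ a) :
    ¬ Twin V G p fun i j => a (i, j) := sorry

theorem twin_phi {n q : ℕ} (V G : Finset (Fin q)) (p : ℕ) (hp : 1 ≤ p) (hVG : Disjoint V G)
    (h : 2 * p * n + 2 ≤ 2 * G.card + V.card) : ∃ Φ : MvPolynomial (Fin q × Fin (n + 1)) ℤ, Φ ≠ 0 ∧
      ∀ (K : Type u) [Field K] (ℓ : Fin q → Fin (n + 1) → K), Twin V G p ℓ → aeval (fun p => ℓ p.1 p.2) Φ = 0 := sorry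

/-- G2. PROOF. `W` = the span of the `w s`, of dimension `e' ≤ e`, `J` = a set of `e'` coordinates such that `W → K^J` is bijective, `b_j`
the dual basis. `T` = the `b_j(l)`, `l ∉ J`, the `κ i`, `i ∉ ρ`, all coordinates of the `ℓ i`, `i ∈ ρ`, the coordinates in `J` of the others. -/
theorem not_thin {K : Type} [Field K] {n q : ℕ} (ρ : Fin q → Fin q) (e : ℕ) (hρ : ∀ i, ρ (ρ i) = ρ i) (he : e < n)
    (h : e * (n + 1 - e) < (q - (Finset.univ.image ρ).card) * (n - e)) (a : Fin q × Fin (n + 1) → K)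
    (ha : AlgebraicIndependent ℤ a) : ¬ Thin ρ e fun i j => a (i, j) := sorry

theorem thin_phi {n q : ℕ} (ρ : Fin q → Fin q) (e : ℕ) (hρ : ∀ i, ρ (ρ i) = ρ i) (he : e < n)
    (h : e * (n + 1 - e) < (q - (Finset.univ.image ρ).card) * (n - e)) :
    ∃ Φ : MvPolynomial (Fin q × Fin (n + 1)) ℤ, Φ ≠ 0 ∧
      ∀ (K : Type u) [Field K] (ℓ : Fin q → Fin (n + 1) → K), Thin ρ e ℓ → aeval (fun p => ℓ p.1 p.2) Φ = 0 := sorry

theorem ok_phi (n q : ℕ) : ∃ Φ : MvPolynomial (Fin q × Fin (n + 1)) ℤ, Φ ≠ 0 ∧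
    ∀ (K : Type u) [Field K] (ℓ : Fin q → Fin (n + 1) → K), aeval (fun p => ℓ p.1 p.2) Φ ≠ 0 → Ok ℓ := sorry

/-- The algebraic core. -/
theorem core {F κ : Type u} [Field F] [IsAlgClosed F] [Field κ] [Algebra F κ] (htr : rk F (Set.univ : Set κ) ≤ 1)
    {n q r : ℕ} (hn : 2 ≤ n) (hq1 : 3 * r * n + 2 ≤ 2 * q) (hq2 : 2 * n + 2 * r ≤ q + 1)
    (hq3 : 4 * r + 4 * r * n + 3 * (n - 2) < 4 * q) (ℓ : Fin q → Fin (n + 1) → F) (hℓ : Ok ℓ) (s0 : Fin r)
    (y : Fin r → Fin (n + 1) → κ) (hu : ∀ i, uu ℓ y i ≠ 0) (hy : ∃ a b, ¬ Cst F (y s0 a / y s0 b))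
    (hrk : Rk F (uu ℓ y) 1) : False := sorry

end Pool.Agent.FIN
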