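import Pool.Agent.Helper97.FIN.XHalf
import Pool.Agent.Helper97.FIN.Main

/-!
# FIN: the algebraic core, for any variety
-/

set_option autoImplicit false

namespace Pool.Agent.FIN

open Pool.Agent.GS Finset

universe u

variable {F κ : Type u} [Field F] [Field κ] [Algebra F κ] {N n q r : ℕ}

section

variable {I : Set (MvPolynomial (Fin (N + 1)) F)} {P : Pla F κ} {y : Fin r → Fin (N + 1) → κ} {s : Fin r → κ} {X : Fin r → Fin (N + 1) → F}
  {ℓ : Fin q → Fin (N + 1) → F} {μ : κ} {M : ℕ} {w : Fin q → ℤ}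

theorem uval_splitX (h : RedX I P y s X) (s0 : Fin r) (i : Fin q) (hi : ∀ σ, σ ≠ s0 → dt (ℓ i) (X σ) ≠ 0) :
    P.O.valuation (uu ℓ y i) = P.O.valuation (lin (ℓ i) (y s0)) *
      ∏ σ ∈ univ.erase s0, P.O.valuation (s σ) := by
  unfold uu
  rw [map_prod, ← Finset.mul_prod_erase univ _ (Finset.mem_univ s0)]
  congr 1
  exact Finset.prod_congr rfl fun σ hσ => (h.val_eq σ (ℓ i)).2 (hi σ (Finset.ne_of_mem_erase hσ))

/-- two hyperplanes which meet `X₀` in the same simple point only -/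
theorem sim_ofX [IsAlgClosed F] (hI : Homog I) (htr : rk F (Set.univ : Set κ) ≤ 1)
    (hG : ∀ z : Fin (N + 1) → F, z ≠ 0 → OnX I z → ∀ s : Finset (Fin q), (∀ i ∈ s, dt (ℓ i) z = 0) → s.card ≤ n)
    (hq : r * n < q) (hy : ∀ σ, y σ ≠ 0) (hyI : ∀ σ, OnX I (y σ))
    (hS : Slp F (uu ℓ y) μ M w) (X₀ : Fin r → Fin (N + 1) → F)
    (hX₀ : ∀ (P : Pla F κ) (s : Fin r → κ) (X : Fin r → Fin (N + 1) → F), RedX I P y s X → P.O.valuation μ < 1 →
        ∃ π : Equiv.Perm (Fin r), ∀ σ, ∃ t : F, t ≠ 0 ∧ X σ = t • X₀ (π σ)) (s0 : Fin r) (i j : Fin q)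
    (hi : ∀ h, w h ≤ w i) (hj : ∀ h, w h ≤ w j) (τ : Fin r) (hiτ : ∀ σ, dt (ℓ i) (X₀ σ) = 0 ↔ σ = τ)
    (hjτ : ∀ σ, dt (ℓ j) (X₀ σ) = 0 ↔ σ = τ) : Sim ℓ (y s0) i j := by
  by_contra hcon
  have hne0 : ∀ g, lin (ℓ g) (y s0) ≠ 0 := fun g h0 => hS.u0 g (Finset.prod_eq_zero (Finset.mem_univ s0) h0)
  obtain ⟨P, hP⟩ := exists_pla _ hcon
  have hzO : (lin (ℓ i) (y s0) / lin (ℓ j) (y s0))⁻¹ ∉ P.O := by
    rw [← P.O.valuation_le_one_iff, map_inv₀, not_le]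
    exact (one_lt_inv₀ (zero_lt_iff.2 ((Valuation.ne_zero_iff _).2 (div_ne_zero (hne0 i) (hne0 j))))).2 hP
  obtain ⟨s, X, h⟩ := exists_redX I hI htr P _ hzO y hy hyI
  have hwij : w i = w j := le_antisymm (hj i) (hi j)
  have key : P.O.valuation (lin (ℓ i) (y s0)) = P.O.valuation (lin (ℓ j) (y s0)) := by
    have hne := exists_neX h hG hq
    have hboth : (∏ σ, dt (ℓ i) (X σ) ≠ 0) → (∏ σ, dt (ℓ j) (X σ) ≠ 0) →
        P.O.valuation (lin (ℓ i) (y s0)) = P.O.valuation (lin (ℓ j) (y s0)) := by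
      intro h1 h2
      rw [(h.val_eq s0 (ℓ i)).2 (Finset.prod_ne_zero_iff.1 h1 s0 (Finset.mem_univ _)),
        (h.val_eq s0 (ℓ j)).2 (Finset.prod_ne_zero_iff.1 h2 s0 (Finset.mem_univ _))]
    rcases lt_trichotomy (P.O.valuation μ) 1 with hμ | hμ | hμ
    · obtain ⟨π, hπ⟩ := hX₀ P s X h hμ
      have hdt : ∀ g σ, dt (ℓ g) (X σ) = 0 ↔ dt (ℓ g) (X₀ (π σ)) = 0 := by
        intro g σ
        obtain ⟨t, ht, hXt⟩ := hπ σ
        rw [hXt, dt_smul, mul_eq_zero]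
        exact ⟨fun h => h.resolve_left ht, Or.inr⟩
      by_cases hs : π s0 = τ
      · have h1 : ∀ g, (∀ σ, dt (ℓ g) (X₀ σ) = 0 ↔ σ = τ) → ∀ σ, σ ≠ s0 → dt (ℓ g) (X σ) ≠ 0 := by
          intro g hg σ hσ h0
          rw [hdt, hg, ← hs] at h0
          exact hσ (π.injective h0)
        have h2 := uval_splitX h s0 i (h1 i hiτ)
        have h3 := uval_splitX h s0 j (h1 j hjτ)
        have h4 : P.O.valuation (uu ℓ y i) = P.O.valuation (uu ℓ y j) :=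
          le_antisymm ((hS.le_iff P hμ i j).2 hwij.ge) ((hS.le_iff P hμ j i).2 hwij.le)
        rw [h2, h3] at h4
        exact mul_right_cancel₀ (Finset.prod_ne_zero_iff.2 fun σ _ => (Valuation.ne_zero_iff _).2 (h.s0 σ)) h4
      · have h1 : ∀ g, (∀ σ, dt (ℓ g) (X₀ σ) = 0 ↔ σ = τ) → dt (ℓ g) (X s0) ≠ 0 := by
          intro g hg h0
          rw [hdt, hg] at h0
          exact hs h0
        rw [(h.val_eq s0 (ℓ i)).2 (h1 i hiτ), (h.val_eq s0 (ℓ j)).2 (h1 j hjτ)]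
    · exact hboth (over1X h hS hμ hne i) (over1X h hS hμ hne j)
    · have hμ' : P.O.valuation μ⁻¹ < 1 := by
        rw [map_inv₀]
        exact inv_lt_one_of_one_lt₀ hμ
      refine hboth ((over0X h hS.symm hμ' hne i).2 fun g => ?_) ((over0X h hS.symm hμ' hne j).2 fun g => ?_)
      · exact neg_le_neg (hi g)
      · exact neg_le_neg (hj g)
  rw [map_div₀, key, div_self ((Valuation.ne_zero_iff _).2 (hne0 j))] at hP
  exact lt_irrefl _ hP

end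

end Pool.Agent.FIN
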